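import Pool.Agent.F5H.StmtsF

/-!
MP_f5cbfa_nt, squad F5H, block C, row MG.
-/

set_option autoImplicit false

namespace Pool.Agent.F5H.BC.H85

open Pool.Agent.BTL Pool.Agent.F5S Pool.Agent.F5H

/-- the first factor of the gain -/
theorem g1 {a k r v : ℝ} (ha : 0 < a) (hk : 1 ≤ k) (hr : 0 < r) (hv : 0 < v) :
    a ^ 2 / (k ^ 2 * (min k⁻¹ (min (r / v) (√(a / k)))) ^ 2) ≤
      max (a ^ 2) (max (a / k) ((a * v / (k * r)) ^ 2)) := by
  have hk0 : 0 < k := by linarith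
  rcases min_choice k⁻¹ (min (r / v) (√(a / k))) with h | h <;> rw [h]
  · refine le_trans (le_of_eq ?_) (le_max_left _ _)
    field_simp
  · rcases min_choice (r / v) (√(a / k)) with h' | h' <;> rw [h']
    · refine le_trans (le_of_eq ?_) ((le_max_right _ _).trans (le_max_right _ _))
      field_simp
    · refine le_trans (le_of_eq ?_) ((le_max_left _ _).trans (le_max_right _ _))
      rw [Real.sq_sqrt (by positivity)]
      field_simp

/-- the second factor of the gain -/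
theorem g2 {Q κ k del z S A : ℝ} (hQ : 4 ≤ Q) (hκ : 0 < κ) (hk : 1 ≤ k) (hd : 0 < del)
    (hz : 0 < z) (hS : 0 < S) (hzS : z ≤ Q ^ 5 * S) (hA : 0 < A) (hdA : del * k ≤ Q ^ 3 * A) :
    min (2 * (S * min 1 (del * k ^ 2 * z)⁻¹ / Q ^ 60)) (8 * (Q ^ 2 * κ) / A) ≤
      8 * Q ^ 70 * min 1 (κ * max k (1 / (del * k * z))) *
        (S * min 1 (del * k ^ 2 * z)⁻¹ / Q ^ 60) := by
  have hk0 : 0 < k := by linarith
  have hQ0 : 0 < Q := by linarith
  have hQ1 : 1 ≤ Q := by linarith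
  have ht : 0 < del * k ^ 2 * z := by positivity
  have hmin : 0 < min 1 (del * k ^ 2 * z)⁻¹ := lt_min one_pos (inv_pos.2 ht)
  have hρ : 0 < S * min 1 (del * k ^ 2 * z)⁻¹ / Q ^ 60 := by positivity
  rcases min_choice 1 (κ * max k (1 / (del * k * z))) with h | h <;> rw [h]
  · refine (min_le_left _ _).trans ?_
    have h1 : 1 ≤ Q ^ 70 := one_le_pow₀ hQ1
    have h2 := mul_le_mul_of_nonneg_right h1 hρ.le
    nlinarith
  · refine (min_le_right _ _).trans ?_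
    have e1 : max k (1 / (del * k * z)) = k * max 1 (del * k ^ 2 * z)⁻¹ := by
      rw [mul_max_of_nonneg _ _ hk0.le, mul_one]
      congr 1
      field_simp
    have e2 : 8 * Q ^ 70 * (κ * max k (1 / (del * k * z))) *
        (S * min 1 (del * k ^ 2 * z)⁻¹ / Q ^ 60) = 8 * Q ^ 10 * κ * S / (del * k * z) := by
      rw [e1]
      have e3 : max 1 (del * k ^ 2 * z)⁻¹ * min 1 (del * k ^ 2 * z)⁻¹ =
          1 * (del * k ^ 2 * z)⁻¹ := max_mul_min _ _
      have e4 : 8 * Q ^ 70 * (κ * (k * max 1 (del * k ^ 2 * z)⁻¹)) *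
          (S * min 1 (del * k ^ 2 * z)⁻¹ / Q ^ 60) = 8 * Q ^ 10 * κ * S * k *
          (max 1 (del * k ^ 2 * z)⁻¹ * min 1 (del * k ^ 2 * z)⁻¹) := by
        field_simp
      rw [e4, e3]
      field_simp
    rw [e2, div_le_div_iff₀ hA (by positivity)]
    have h3 : del * k * z ≤ Q ^ 3 * A * (Q ^ 5 * S) :=
      mul_le_mul hdA hzS hz.le (by positivity)
    have h4 := mul_le_mul_of_nonneg_left h3 (by positivity : 0 ≤ 8 * (Q ^ 2 * κ))
    linarith

/-- the common part -/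
theorem g3 {Q C a n m k mn G1 G2 ρ : ℝ} (hQ : 4 ≤ Q) (hC : 1 ≤ C) (hCQ : C ≤ Q) (ha : 0 < a)
    (hn : 0 < n) (hk : 0 < k) (hkn : k ≤ Q ^ 2 * n) (hm : 0 < m) (hρ : 0 < ρ) (hG1 : 0 ≤ G1)
    (hG2 : 0 ≤ G2)
    (h1 : a ^ 2 / (k ^ 2 * m ^ 2) ≤ G1) (h2 : mn ≤ 8 * Q ^ 70 * G2 * ρ) :
    C * ((Q ^ 4 * a) ^ 2 * mn) / ((1 / Q) ^ 20 * n ^ 2 * (m / Q ^ 60) ^ 2 * ρ) ≤
      Q ^ 400 * (G1 * G2) := by
  have hQ0 : 0 < Q := by linarith
  have hQ1 : 1 ≤ Q := by linarith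
  have hk2 : k ^ 2 ≤ Q ^ 4 * n ^ 2 := by
    have := pow_le_pow_left₀ hk.le hkn 2
    refine this.trans (le_of_eq (by ring))
  have e1 : C * ((Q ^ 4 * a) ^ 2 * mn) / ((1 / Q) ^ 20 * n ^ 2 * (m / Q ^ 60) ^ 2 * ρ) =
      C * Q ^ 148 * (a ^ 2 / (k ^ 2 * m ^ 2)) * (k ^ 2 / n ^ 2) * (mn / ρ) := by
    field_simp
  rw [e1]
  have h3 : k ^ 2 / n ^ 2 ≤ Q ^ 4 := by
    rw [div_le_iff₀ (by positivity)]
    exact hk2
  have h4 : mn / ρ ≤ 8 * Q ^ 70 * G2 := by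
    rw [div_le_iff₀ hρ]
    exact h2
  calc C * Q ^ 148 * (a ^ 2 / (k ^ 2 * m ^ 2)) * (k ^ 2 / n ^ 2) * (mn / ρ)
      ≤ Q * Q ^ 148 * G1 * Q ^ 4 * (8 * Q ^ 70 * G2) := by
        refine le_trans (mul_le_mul_of_nonneg_left h4 (by positivity)) ?_
        refine mul_le_mul_of_nonneg_right ?_ (by positivity)
        refine mul_le_mul (mul_le_mul (mul_le_mul_of_nonneg_right hCQ (by positivity)) h1
          (by positivity) (by positivity)) h3 (by positivity) (by positivity)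
    _ = 8 * Q ^ 223 * (G1 * G2) := by ring
    _ ≤ Q ^ 400 * (G1 * G2) := by
        refine mul_le_mul_of_nonneg_right ?_ (mul_nonneg hG1 hG2)
        have h5 : (8 : ℝ) ≤ Q ^ 2 := by nlinarith
        calc 8 * Q ^ 223 ≤ Q ^ 2 * Q ^ 223 := mul_le_mul_of_nonneg_right h5 (by positivity)
          _ = Q ^ 225 := by ring
          _ ≤ Q ^ 400 := pow_le_pow_right₀ hQ1 (by norm_num)

/-- MG -/
theorem mg : MGStmt := by
  intro T Q C V k0 del nK S A₁ hQ hC hCQ hT hV2 hV21 hV10 hk hdk hd1 hkn hS hzS hr hkpr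
  have hT0 : 0 < T := by linarith
  have hQ0 : 0 < Q := by linarith
  have hk0 : 0 < k0 := by linarith
  have hV0 : 0 < V 0 := by linarith
  have hd : 0 < del := lt_of_lt_of_le (inv_pos.2 hk0) hdk
  have hn : 0 < nK := by
    by_contra hc
    push Not at hc
    have : Q ^ 2 * nK ≤ 0 := mul_nonpos_of_nonneg_of_nonpos (by positivity) hc
    linarith
  have ha : 0 < BC.kap T (V 0) := by
    unfold BC.kap
    positivity
  have hκ : 0 < kpr T (V 0) := by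
    unfold kpr
    exact lt_max_of_lt_left (by positivity)
  have hz : 0 < ze T V := by unfold ze; positivity
  have hV2' : 0 < V 2 := by linarith
  have hm : 0 < min k0⁻¹ (min (Rx T / T / V 2) (√(BC.kap T (V 0) / k0))) :=
    lt_min (inv_pos.2 hk0) (lt_min (by positivity) (by positivity))
  have hG1 := g1 ha hk hr hV2'
  have ez : ∀ d : ℝ, 0 < d → T ^ 2 / (d * k0 * V 0 ^ 2) = 1 / (d * k0 * ze T V) := by
    intro d hd
    unfold ze
    field_simp
  have hρ : ∀ d : ℝ, 0 < d → 0 < rhZ T Q V k0 d S := by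
    intro d hd
    unfold rhZ
    have : 0 < min 1 (d * k0 ^ 2 * ze T V)⁻¹ := lt_min one_pos (inv_pos.2 (by positivity))
    positivity
  have hG10 : 0 ≤ max (BC.kap T (V 0) ^ 2) (max (BC.kap T (V 0) / k0)
      ((BC.kap T (V 0) * V 2 / (k0 * (Rx T / T))) ^ 2)) := le_max_of_le_left (by positivity)
  constructor
  · intro hA hdA
    have hG2 := g2 hQ hκ hk hd hz hS hzS hA hdA
    have hG20 : 0 ≤ min 1 (kpr T (V 0) * max k0 (T ^ 2 / (del * k0 * V 0 ^ 2))) :=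
      le_min zero_le_one (mul_nonneg hκ.le (le_max_of_le_left hk0.le))
    rw [← ez del hd] at hG2
    exact g3 hQ hC hCQ ha hn hk0 hkn hm (hρ del hd) hG10 hG20 hG1 hG2
  · have hd' : 0 < k0⁻¹ := inv_pos.2 hk0
    have hG20 : min 1 (kpr T (V 0) * max k0 (T ^ 2 / (k0⁻¹ * k0 * V 0 ^ 2))) = 1 := by
      refine min_eq_left ?_
      rw [inv_mul_cancel₀ hk0.ne', one_mul]
      refine hkpr.trans (mul_le_mul_of_nonneg_left (le_max_right _ _) hκ.le)
    have h2 : 2 * rhZ T Q V k0 k0⁻¹ S ≤ 8 * Q ^ 70 *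
        (min 1 (kpr T (V 0) * max k0 (T ^ 2 / (k0⁻¹ * k0 * V 0 ^ 2)))) *
        rhZ T Q V k0 k0⁻¹ S := by
      rw [hG20, mul_one]
      have h1 : 1 ≤ Q ^ 70 := one_le_pow₀ (by linarith)
      have h3 := mul_le_mul_of_nonneg_right h1 (hρ _ hd').le
      nlinarith [hρ _ hd']
    exact g3 hQ hC hCQ ha hn hk0 hkn hm (hρ _ hd') hG10 (by rw [hG20]; exact zero_le_one) hG1 h2

end Pool.Agent.F5H.BC.H85
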