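import Pool.Agent.Helper85_F5H.Ker2

/-!
MP_f5cbfa_nt, squad F5H, block LIP: the support of the kernel.
-/

set_option autoImplicit false

open MeasureTheory Filter Topology

namespace Pool.Agent.F5H.LIP

open Pool.Agent.BTL Pool.Agent.F5S Pool.Agent.F5H Pool.Agent.Helper48_F5

theorem nsq_le_nr (x : ℝ × ℝ) : ‖x‖ ^ 2 ≤ nr x := by
  have h : ‖x‖ = max |x.1| |x.2| := rfl
  rw [h]
  unfold nr
  rcases max_choice |x.1| |x.2| with h | h <;> rw [h, sq_abs] <;> nlinarith [sq_nonneg x.1,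
    sq_nonneg x.2]

theorem dr_le2 (x y : ℝ × ℝ) : |dr x y| ≤ 2 * (‖x‖ * ‖y‖) := by
  have e2 : |x.1 * y.2| ≤ ‖x‖ * ‖y‖ := by
    rw [abs_mul]
    exact mul_le_mul (n2 x).1 (n2 y).2 (abs_nonneg _) (norm_nonneg _)
  have e3 : |x.2 * y.1| ≤ ‖x‖ * ‖y‖ := by
    rw [abs_mul]
    exact mul_le_mul (n2 x).2 (n2 y).1 (abs_nonneg _) (norm_nonneg _)
  unfold dr
  rw [abs_le] at e2 e3 ⊢
  constructor <;> linarith [e2.1, e2.2, e3.1, e3.2]

theorem t3_sub (m u : R6) : t3 (m - u) = t3 m - t3 u := by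
  funext l
  fin_cases l <;> rfl

/-- the geometric part of the support -/
theorem supp1 {T P L : ℝ} (hT : 0 < T) (hP : 1 ≤ P) (hL : 0 < L) (hLT : 20 * (P * L) ≤ T)
    {c x h : R6} (hc : good T P c) (hx : ‖x - c‖ ≤ L) (hy : ‖x + h - c‖ ≤ L) :
    ‖h‖ ≤ 2 * L ∧ ‖x‖ ≤ 3 * T ∧ (∀ l, ‖t3 (mid h x) l‖ ≤ 3 * T) ∧
    ∀ i j, i ≠ j → T ^ 2 / (2 * P) ≤ |dr (t3 (mid h x) i) (t3 (mid h x) j)| := by
  have hLT' : L ≤ T := by nlinarith
  have hcn : ‖c‖ ≤ 2 * T := by
    have key : ∀ x : ℝ × ℝ, nr x ≤ (2 * T) ^ 2 → ‖x‖ ≤ 2 * T := fun x hx =>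
      le_of_sq_le_sq ((nsq_le_nr x).trans hx) (by positivity)
    exact n6_le (key _ hc.1.1) (key _ hc.1.2.1) (key _ hc.1.2.2)
  have hmc : ‖mid h x - c‖ ≤ L := by
    have e : mid h x - c = (1 / 2 : ℝ) • (x - c) + (1 / 2 : ℝ) • (x + h - c) := by
      unfold mid
      module
    rw [e]
    refine (norm_add_le _ _).trans ?_
    rw [norm_smul, norm_smul, Real.norm_eq_abs, abs_of_pos (by norm_num : (0 : ℝ) < 1 / 2)]
    linarith
  refine ⟨?_, ?_, ?_, ?_⟩
  · have e : h = (x + h - c) - (x - c) := by abel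
    calc ‖h‖ = ‖(x + h - c) - (x - c)‖ := by rw [← e]
      _ ≤ ‖x + h - c‖ + ‖x - c‖ := norm_sub_le _ _
      _ ≤ 2 * L := by linarith
  · have e : x = (x - c) + c := by abel
    calc ‖x‖ = ‖(x - c) + c‖ := by rw [← e]
      _ ≤ ‖x - c‖ + ‖c‖ := norm_add_le _ _
      _ ≤ 3 * T := by linarith
  · intro l
    refine (t3_norm _ l).trans ?_
    have e : mid h x = (mid h x - c) + c := by abel
    calc ‖mid h x‖ = ‖(mid h x - c) + c‖ := by rw [← e]
      _ ≤ ‖mid h x - c‖ + ‖c‖ := norm_add_le _ _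
      _ ≤ 3 * T := by linarith
  · intro i j hij
    have hd : T ^ 2 / P ≤ |dr (t3 c i) (t3 c j)| := by
      obtain ⟨d1, d2, d3⟩ := hc.2
      have sw : ∀ a b : ℝ × ℝ, |dr a b| = |dr b a| := by
        intro a b
        rw [← abs_neg]
        congr 1
        unfold dr
        ring
      fin_cases i <;> fin_cases j
      · exact absurd rfl hij
      · exact d1
      · exact d2
      · rw [sw]; exact d1
      · exact absurd rfl hij
      · exact d3
      · rw [sw]; exact d2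
      · rw [sw]; exact d3
      · exact absurd rfl hij
    set m := mid h x with hm
    have e : dr (t3 c i) (t3 c j) = dr (t3 m i) (t3 m j) -
        (dr (t3 (m - c) i) (t3 m j) + dr (t3 c i) (t3 (m - c) j)) := by
      rw [t3_sub]
      simp only [dr, Pi.sub_apply, Prod.fst_sub, Prod.snd_sub]
      ring
    have hmn : ‖t3 m j‖ ≤ 3 * T := by
      refine (t3_norm _ j).trans ?_
      have e : m = (m - c) + c := by abel
      calc ‖m‖ = ‖(m - c) + c‖ := by rw [← e]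
        _ ≤ ‖m - c‖ + ‖c‖ := norm_add_le _ _
        _ ≤ 3 * T := by linarith
    have b1 : |dr (t3 (m - c) i) (t3 m j)| ≤ 2 * (L * (3 * T)) :=
      (dr_le2 _ _).trans (mul_le_mul_of_nonneg_left (mul_le_mul ((t3_norm _ _).trans hmc) hmn
        (norm_nonneg _) hL.le) (by norm_num))
    have b2 : |dr (t3 c i) (t3 (m - c) j)| ≤ 2 * (2 * T * L) :=
      (dr_le2 _ _).trans (mul_le_mul_of_nonneg_left (mul_le_mul ((t3_norm _ _).trans hcn)
        ((t3_norm _ _).trans hmc) (norm_nonneg _) (by positivity)) (by norm_num))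
    have b3 : |dr (t3 c i) (t3 c j)| ≤ |dr (t3 m i) (t3 m j)| + 10 * (L * T) := by
      rw [e]
      refine (abs_sub _ _).trans ?_
      have := abs_add_le (dr (t3 (m - c) i) (t3 m j)) (dr (t3 c i) (t3 (m - c) j))
      linarith
    have b4 : 10 * (L * T) ≤ T ^ 2 / (2 * P) := by
      rw [le_div_iff₀ (by positivity)]
      nlinarith
    have b5 : T ^ 2 / P = T ^ 2 / (2 * P) + T ^ 2 / (2 * P) := by
      field_simp
      ring
    linarith

/-- the arithmetic part of the support -/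
theorem supp2 {M R e K T V P Q : ℝ} {p : ℝ × ℝ} {h m : R6} (hM : 1 ≤ M) (hT : 0 < T)
    (hR : 1 ≤ R) (he : 0 < e) (hP : 1 ≤ P) (hV0 : 0 ≤ V) (hVT : V ≤ T)
    (ho : Ok K T V (t3 m) (t3 h))
    (hm3 : ∀ l, ‖t3 m l‖ ≤ 3 * T) (hm2 : T ≤ 12 * P * ‖t3 m 2‖)
    (hs1 : 32 * (M * K * B0 e p) ≤ T ^ 2) (hs2 : 24 * (K * V) ≤ T)
    (hQ : 864 * (M ^ 2 * P ^ 2) + 1152 * (M * B0 e p * P ^ 2) +
      288 * (M * (1 + e + 3 * B0 e p) * P ^ 2) ≤ Q)
    {A : ℝ × ℝ × ℝ} (hA : A ∈ KM (2 * M)) (hPh : Ph R e p (dd5 h m A) ≠ 0) :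
    Zf T (t3 m) (t3 h) ∈ KM Q ∧
    (∀ i j, |Ff T (t3 m) (t3 h) i - Ff T (t3 m) (t3 h) j| ≤ Q) ∧
    ∀ i, |Ff T (t3 m) (t3 h) i| ≤ Q * R := by
  have hR0 : 0 < R := by linarith
  obtain ⟨s1, s2, s3, s4, s5⟩ := Ph_supp hR0 he hPh
  rw [dd5_eq] at s1 s2 s3 s4 s5
  have hB0 : 0 ≤ B0 e p := by unfold B0; positivity
  set B := B0 e p with hB
  have hT2 : 0 < T ^ 2 := by positivity
  have hK0 : 0 ≤ K := by
    have h1 := (norm_nonneg _).trans (ho.hm 0)
    by_contra hc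
    push Not at hc
    nlinarith
  have E : ∀ l, |AW A (t3 m) (t3 h) l - AW A (t3 m) (t3 h) 2| ≤ 2 * B := by
    have s1' := abs_le.1 s1
    have s2' := abs_le.1 s2
    intro l
    fin_cases l
    · change |AW A (t3 m) (t3 h) 0 - AW A (t3 m) (t3 h) 2| ≤ 2 * B
      rw [abs_le]
      constructor <;> linarith [s1'.1, s1'.2, s2'.1, s2'.2]
    · change |AW A (t3 m) (t3 h) 1 - AW A (t3 m) (t3 h) 2| ≤ 2 * B
      rw [abs_le]
      constructor <;> linarith [s2'.1, s2'.2]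
    · change |AW A (t3 m) (t3 h) 2 - AW A (t3 m) (t3 h) 2| ≤ 2 * B
      rw [sub_self, abs_zero]
      linarith
  have O : ∀ i j, |Helper48_F5.bl A (t3 m i) (t3 h i) - Helper48_F5.bl A (t3 m j) (t3 h j)| ≤
      2 * B := by
    have s3' := abs_le.1 s3
    have s4' := abs_le.1 s4
    intro i j
    fin_cases i <;> fin_cases j
    · change |Helper48_F5.bl A (t3 m 0) (t3 h 0) - Helper48_F5.bl A (t3 m 0) (t3 h 0)| ≤ 2 * B
      rw [sub_self, abs_zero]; linarith
    · change |Helper48_F5.bl A (t3 m 0) (t3 h 0) - Helper48_F5.bl A (t3 m 1) (t3 h 1)| ≤ 2 * B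
      rw [abs_le]; constructor <;> linarith [s3'.1, s3'.2, s4'.1, s4'.2]
    · change |Helper48_F5.bl A (t3 m 0) (t3 h 0) - Helper48_F5.bl A (t3 m 2) (t3 h 2)| ≤ 2 * B
      rw [abs_le]; constructor <;> linarith [s3'.1, s3'.2, s4'.1, s4'.2]
    · change |Helper48_F5.bl A (t3 m 1) (t3 h 1) - Helper48_F5.bl A (t3 m 0) (t3 h 0)| ≤ 2 * B
      rw [abs_le]; constructor <;> linarith [s3'.1, s3'.2, s4'.1, s4'.2]
    · change |Helper48_F5.bl A (t3 m 1) (t3 h 1) - Helper48_F5.bl A (t3 m 1) (t3 h 1)| ≤ 2 * B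
      rw [sub_self, abs_zero]; linarith
    · change |Helper48_F5.bl A (t3 m 1) (t3 h 1) - Helper48_F5.bl A (t3 m 2) (t3 h 2)| ≤ 2 * B
      rw [abs_le]; constructor <;> linarith [s3'.1, s3'.2, s4'.1, s4'.2]
    · change |Helper48_F5.bl A (t3 m 2) (t3 h 2) - Helper48_F5.bl A (t3 m 0) (t3 h 0)| ≤ 2 * B
      rw [abs_le]; constructor <;> linarith [s3'.1, s3'.2, s4'.1, s4'.2]
    · change |Helper48_F5.bl A (t3 m 2) (t3 h 2) - Helper48_F5.bl A (t3 m 1) (t3 h 1)| ≤ 2 * B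
      rw [abs_le]; constructor <;> linarith [s3'.1, s3'.2, s4'.1, s4'.2]
    · change |Helper48_F5.bl A (t3 m 2) (t3 h 2) - Helper48_F5.bl A (t3 m 2) (t3 h 2)| ≤ 2 * B
      rw [sub_self, abs_zero]; linarith
  have O2 : |Helper48_F5.bl A (t3 m 2) (t3 h 2)| ≤ R + e := s5
  set lam := AW A (t3 m) (t3 h) 2 / T ^ 2 with hlam
  -- bounds of lam
  have q1 := KM_qf_le hM hA (t3 m 2)
  have q2 := KM_qf_le hM hA (t3 h 2)
  have lam_hi : lam ≤ 40 * M := by
    rw [hlam, div_le_iff₀ hT2]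
    unfold AW
    have b1 : ‖t3 m 2‖ ^ 2 ≤ (3 * T) ^ 2 := pow_le_pow_left₀ (norm_nonneg _) (hm3 2) 2
    have b2 : ‖t3 h 2‖ ^ 2 ≤ T ^ 2 := pow_le_pow_left₀ (norm_nonneg _) ((ho.hh 2).trans hVT) 2
    have c1 := mul_le_mul_of_nonneg_left b1 (by linarith : 0 ≤ 4 * M)
    have c2 := mul_le_mul_of_nonneg_left b2 (by linarith : 0 ≤ 4 * M)
    have c3 : 0 ≤ M * T ^ 2 := by positivity
    linarith [q1.1, q1.2, q2.1, q2.2]
  have hX : 0 < 288 * M * P ^ 2 := by positivity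
  have lam_lo : 1 ≤ 288 * M * P ^ 2 * lam := by
    have h1 : nr (t3 m 2) / (2 * M) ≤ qf A (t3 m 2) := (hA (t3 m 2)).1
    have h2 : ‖t3 m 2‖ ^ 2 ≤ nr (t3 m 2) := nsq_le_nr _
    have h3 : T ^ 2 ≤ (12 * P * ‖t3 m 2‖) ^ 2 := pow_le_pow_left₀ hT.le hm2 2
    have h4 : T ^ 2 ≤ 288 * M * P ^ 2 * qf A (t3 m 2) := by
      have h5 : ‖t3 m 2‖ ^ 2 ≤ 2 * M * qf A (t3 m 2) := by
        rw [div_le_iff₀ (by positivity)] at h1
        linarith
      have h6 := mul_le_mul_of_nonneg_left h5 (by positivity : 0 ≤ 144 * P ^ 2)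
      nlinarith
    have h7 : T ^ 2 ≤ 288 * M * P ^ 2 * AW A (t3 m) (t3 h) 2 := by
      unfold AW
      have := mul_nonneg hX.le q2.1
      nlinarith
    have h8 : 288 * M * P ^ 2 * lam = 288 * M * P ^ 2 * AW A (t3 m) (t3 h) 2 / T ^ 2 := by
      rw [hlam]
      ring
    rw [h8, le_div_iff₀ hT2, one_mul]
    exact h7
  have lam0 : 0 < lam := by
    by_contra hc
    push Not at hc
    nlinarith
  have linv : lam⁻¹ ≤ 288 * M * P ^ 2 := by
    rw [inv_le_iff_one_le_mul₀ lam0]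
    exact lam_lo
  set A0 := A - lam • Zf T (t3 m) (t3 h) with hA0
  have key : ∀ l, |AW A0 (t3 m) (t3 h) l| ≤ 2 * B := by
    intro l
    have e1 : AW A0 (t3 m) (t3 h) l = AW A (t3 m) (t3 h) l - AW A (t3 m) (t3 h) 2 := by
      rw [hA0, AW_sub, AW_smul, AW_Zf ho, hlam]
      field_simp
    rw [e1]
    exact E l
  have hA0n : ‖A0‖ ≤ K * (2 * B) / T ^ 2 := ho.inv _ _ key
  have hZ : Zf T (t3 m) (t3 h) = lam⁻¹ • (A - A0) := by
    rw [hA0, sub_sub_cancel, smul_smul, inv_mul_cancel₀ lam0.ne', one_smul]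
  have small : ∀ x : ℝ × ℝ, |qf A0 x| ≤ nr x / (4 * M) := by
    intro x
    have h1 := blb hA0n (le_refl ‖x‖) (le_refl ‖x‖)
    rw [bl_self] at h1
    refine h1.trans ?_
    have h2 := nsq_le_nr x
    rw [le_div_iff₀ (by positivity)]
    have h3 : 4 * (K * (2 * B) / T ^ 2) * ‖x‖ * ‖x‖ * (4 * M) =
        (32 * (M * K * B)) / T ^ 2 * ‖x‖ ^ 2 := by
      field_simp
      ring
    rw [h3]
    have h4 : (32 * (M * K * B)) / T ^ 2 ≤ 1 := by
      rw [div_le_one hT2]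
      exact hs1
    calc (32 * (M * K * B)) / T ^ 2 * ‖x‖ ^ 2 ≤ 1 * ‖x‖ ^ 2 :=
          mul_le_mul_of_nonneg_right h4 (by positivity)
      _ ≤ nr x := by linarith
  have hMB : 0 ≤ M * B * P ^ 2 := by positivity
  have hMe : 0 ≤ M * (1 + e + 3 * B) * P ^ 2 := by positivity
  have hMP : 0 ≤ M ^ 2 * P ^ 2 := by positivity
  refine ⟨?_, ?_, ?_⟩
  · intro x
    have hn : 0 ≤ nr x := by unfold nr; positivity
    have e1 : qf (Zf T (t3 m) (t3 h)) x = lam⁻¹ * (qf A x - qf A0 x) := by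
      rw [hZ, ← bl_self, bl_smul_form, bl_sub_form, bl_self, bl_self]
    have h1 := hA x
    have h2 := abs_le.1 (small x)
    have hQ1 : 864 * (M ^ 2 * P ^ 2) ≤ Q := by linarith
    have hQ0 : 0 < Q := lt_of_lt_of_le (by positivity) hQ1
    constructor
    · have h3 : nr x / (4 * M) ≤ qf A x - qf A0 x := by
        have : nr x / (2 * M) = nr x / (4 * M) + nr x / (4 * M) := by
          field_simp
          ring
        linarith [h1.1, h2.2]
      have h4 : (40 * M)⁻¹ ≤ lam⁻¹ := by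
        exact inv_anti₀ lam0 lam_hi
      rw [e1]
      calc nr x / Q ≤ nr x / (160 * M ^ 2) := by
            apply div_le_div_of_nonneg_left hn (by positivity)
            have : M ^ 2 ≤ M ^ 2 * P ^ 2 := le_mul_of_one_le_right (by positivity)
              (one_le_pow₀ hP)
            linarith
        _ = (40 * M)⁻¹ * (nr x / (4 * M)) := by
            field_simp
            ring
        _ ≤ lam⁻¹ * (qf A x - qf A0 x) :=
            mul_le_mul h4 h3 (by positivity) (by positivity)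
    · have h3 : qf A x - qf A0 x ≤ 3 * M * nr x := by
        have : nr x / (4 * M) ≤ M * nr x := by
          rw [div_le_iff₀ (by positivity)]
          have : 1 ≤ 4 * M ^ 2 := by nlinarith
          nlinarith
        linarith [h1.2, h2.1]
      have h4 : 0 ≤ qf A x - qf A0 x := by
        have h5 : nr x / (2 * M) = nr x / (4 * M) + nr x / (4 * M) := by
          field_simp
          ring
        have h6 : 0 ≤ nr x / (4 * M) := by positivity
        linarith [h1.1, h2.2]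
      rw [e1]
      calc lam⁻¹ * (qf A x - qf A0 x) ≤ 288 * M * P ^ 2 * (3 * M * nr x) :=
            mul_le_mul linv h3 h4 hX.le
        _ = 864 * (M ^ 2 * P ^ 2) * nr x := by ring
        _ ≤ Q * nr x := mul_le_mul_of_nonneg_right hQ1 hn
  · intro i j
    have fl : ∀ l, Ff T (t3 m) (t3 h) l = lam⁻¹ * (Helper48_F5.bl A (t3 m l) (t3 h l) -
        Helper48_F5.bl A0 (t3 m l) (t3 h l)) := by
      intro l
      unfold Ff
      rw [hZ, bl_smul_form, bl_sub_form]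
    have sm : ∀ l, |Helper48_F5.bl A0 (t3 m l) (t3 h l)| ≤ B := by
      intro l
      have h1 := blb hA0n (hm3 l) (ho.hh l)
      refine h1.trans ?_
      have e1 : 4 * (K * (2 * B) / T ^ 2) * (3 * T) * V = B * (24 * (K * V) / T) := by
        field_simp
        ring
      rw [e1]
      have : 24 * (K * V) / T ≤ 1 := by
        rw [div_le_one hT]
        exact hs2
      exact (mul_le_mul_of_nonneg_left this hB0).trans (le_of_eq (mul_one B))
    have h1 : |(Helper48_F5.bl A (t3 m i) (t3 h i) - Helper48_F5.bl A0 (t3 m i) (t3 h i)) -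
        (Helper48_F5.bl A (t3 m j) (t3 h j) - Helper48_F5.bl A0 (t3 m j) (t3 h j))| ≤ 4 * B := by
      have a1 := abs_le.1 (O i j)
      have a2 := abs_le.1 (sm i)
      have a3 := abs_le.1 (sm j)
      rw [abs_le]
      constructor <;> linarith only [a1.1, a1.2, a2.1, a2.2, a3.1, a3.2]
    rw [fl, fl, ← mul_sub, abs_mul, abs_of_pos (inv_pos.2 lam0)]
    calc lam⁻¹ * _ ≤ 288 * M * P ^ 2 * (4 * B) := mul_le_mul linv h1 (abs_nonneg _) hX.le
      _ = 1152 * (M * B * P ^ 2) := by ring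
      _ ≤ Q := by linarith only [hQ, hMB, hMe, hMP]
  · intro i
    have fl : ∀ l, Ff T (t3 m) (t3 h) l = lam⁻¹ * (Helper48_F5.bl A (t3 m l) (t3 h l) -
        Helper48_F5.bl A0 (t3 m l) (t3 h l)) := by
      intro l
      unfold Ff
      rw [hZ, bl_smul_form, bl_sub_form]
    have sm : ∀ l, |Helper48_F5.bl A0 (t3 m l) (t3 h l)| ≤ B := by
      intro l
      have h1 := blb hA0n (hm3 l) (ho.hh l)
      refine h1.trans ?_
      have e1 : 4 * (K * (2 * B) / T ^ 2) * (3 * T) * V = B * (24 * (K * V) / T) := by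
        field_simp
        ring
      rw [e1]
      have : 24 * (K * V) / T ≤ 1 := by
        rw [div_le_one hT]
        exact hs2
      exact (mul_le_mul_of_nonneg_left this hB0).trans (le_of_eq (mul_one B))
    have h1 : |Helper48_F5.bl A (t3 m i) (t3 h i) - Helper48_F5.bl A0 (t3 m i) (t3 h i)| ≤
        (1 + e + 3 * B) * R := by
      have a1 := abs_le.1 (O i 2)
      have a2 := abs_le.1 (sm i)
      have a3 := abs_le.1 O2
      have a4 : e + 3 * B ≤ (e + 3 * B) * R := le_mul_of_one_le_right (by positivity) hR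
      rw [abs_le]
      constructor <;> linarith only [a1.1, a1.2, a2.1, a2.2, a3.1, a3.2, a4]
    rw [fl, abs_mul, abs_of_pos (inv_pos.2 lam0)]
    calc lam⁻¹ * _ ≤ 288 * M * P ^ 2 * ((1 + e + 3 * B) * R) :=
          mul_le_mul linv h1 (abs_nonneg _) hX.le
      _ = 288 * (M * (1 + e + 3 * B) * P ^ 2) * R := by ring
      _ ≤ Q * R := mul_le_mul_of_nonneg_right (by linarith only [hQ, hMB, hMe, hMP]) hR0.le

end Pool.Agent.F5H.LIP
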