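import Pool.Agent.F5H.StmtsN
import Pool.Agent.Helper85_F5H.Sup

/-!
MP_f5cbfa_nt, squad F5H, block LIP: `FUPeStmt`, `FUPStmt`, `LKStmt`.
-/

set_option autoImplicit false

open MeasureTheory Filter Topology

namespace Pool.Agent.F5H.LIP

open Pool.Agent.BTL Pool.Agent.F5S Pool.Agent.F5H Pool.Agent.Helper48_F5

theorem ev_pow (C : ℝ) {a b : ℝ} (hab : a < b) : ∀ᶠ T : ℝ in atTop, C * T ^ a ≤ T ^ b := by
  have h1 : Tendsto (fun T : ℝ => T ^ (b - a)) atTop atTop := tendsto_rpow_atTop (by linarith)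
  filter_upwards [h1.eventually_ge_atTop C, eventually_gt_atTop 0] with T hT hT0
  have e : T ^ b = T ^ (b - a) * T ^ a := by
    rw [← Real.rpow_add hT0]
    congr 1
    ring
  rw [e]
  exact mul_le_mul_of_nonneg_right hT (by positivity)

theorem pw_pow {T : ℝ} (hT : 0 < T) (a : ℝ) (k : ℕ) : (T ^ a) ^ k = T ^ (a * k) := by
  rw [Real.rpow_mul hT.le, Real.rpow_natCast]

theorem Ok_mono {K K' T V : ℝ} {m h : T3} (hT : 0 < T) (hK : K ≤ K') (ho : Ok K T V m h) :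
    Ok K' T V m h := by
  refine ⟨fun l => (ho.hm l).trans (mul_le_mul_of_nonneg_right hK hT.le), ho.hh, ?_⟩
  intro A f hf
  have hf0 : 0 ≤ f := (abs_nonneg _).trans (hf 0)
  refine (ho.inv A f hf).trans ?_
  gcongr

theorem Rx_ge {T : ℝ} (hT : 1 ≤ T) : 1 ≤ Rx T := by
  unfold Rx
  exact Real.one_le_rpow hT (by have := rho0_pos; linarith)

/-- the support and the bound with real parameters -/
theorem fup_real {M e T P Q C1 : ℝ} {p : ℝ × ℝ} {W : R6 → ℝ} {h : Z6} {x : R6}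
    (hM : 1 ≤ M) (he : 0 < e) (hT1 : 1 ≤ T) (hP1 : 1 ≤ P) (hC1 : 1 ≤ C1)
    (hMC : M ≤ C1) (hBC : B0 e p ≤ C1) (heC : e ≤ C1)
    (hWC : (∀ x y, 0 ≤ WC (Lx T) W x y ∧ WC (Lx T) W x y ≤ 64) ∧
      ∀ x y, WC (Lx T) W x y ≠ 0 → ∃ c, W c ≠ 0 ∧ ‖x - c‖ ≤ Lx T ∧ ‖y - c‖ ≤ Lx T)
    (Wg : ∀ c, W c ≠ 0 → good T P c)
    (c1 : 31104 * (P ^ 4 * Lx T ^ 2) ≤ T ^ 2)
    (c2 : 32 * (M * (7776 * P ^ 4) * B0 e p) ≤ T ^ 2)
    (c3 : 24 * ((7776 * P ^ 4) * (2 * Lx T)) ≤ T)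
    (c4 : 864 * (M ^ 2 * P ^ 2) + 1152 * (M * B0 e p * P ^ 2) +
      288 * (M * (1 + e + 3 * B0 e p) * P ^ 2) ≤ Q)
    (c5 : 20 * (P * Lx T) ≤ T)
    (c6 : 64 * (384 * (7776 * C1) ^ 10) * P ^ 40 ≤ Q)
    (c7 : 3 * P ≤ Q) (hne : fx M T e p W h x ≠ 0) :
    fx M T e p W h x ≤ Q * (T ^ 4)⁻¹ ∧
      ‖r3 h‖ ≤ 2 * Lx T ∧ ‖x‖ ≤ 3 * T ∧
      (∀ l, ‖t3 (mid (r3 h) x) l‖ ≤ 3 * T) ∧
      (∀ i j, i ≠ j → T ^ 2 ≤ Q * |dr (t3 (mid (r3 h) x) i) (t3 (mid (r3 h) x) j)|) ∧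
      Zf T (t3 (mid (r3 h) x)) (t3 (r3 h)) ∈ KM Q ∧
      (∀ i j, |Ff T (t3 (mid (r3 h) x)) (t3 (r3 h)) i -
        Ff T (t3 (mid (r3 h) x)) (t3 (r3 h)) j| ≤ Q) ∧
      ∀ i, |Ff T (t3 (mid (r3 h) x)) (t3 (r3 h)) i| ≤ Q * Rx T := by
  have hT0 : 0 < T := by linarith
  have hP0 : 0 < P := by linarith
  have hLx : 0 < Lx T := by unfold Lx; positivity
  have hRx := Rx_ge hT1
  have hRx0 : 0 < Rx T := by linarith
  have hfx := fx_eq M T e p W h x
  rw [hfx] at hne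
  have hw : WC (Lx T) W x (x + r3 h) ≠ 0 := left_ne_zero_of_mul hne
  have hg : gA M (Rx T) e p (r3 h) (mid (r3 h) x) ≠ 0 := right_ne_zero_of_mul hne
  obtain ⟨c, hc, hxc, hyc⟩ := hWC.2 _ _ hw
  obtain ⟨s1, s2, s3, s4⟩ := supp1 hT0 hP1 hLx c5 (Wg c hc) hxc hyc
  set m := mid (r3 h) x with hm
  have e3T : 3 * T ≤ 6 * P * T := by
    have := mul_le_mul_of_nonneg_right hP1 hT0.le
    linarith only [this, hT0]
  have hreg : Reg (6 * P) T (2 * Lx T) (t3 m) (t3 (r3 h)) := by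
    refine ⟨fun l => (s3 l).trans e3T, fun i j hij => ?_, fun l =>
      (t3_norm _ l).trans s1⟩
    refine le_trans ?_ (s4 i j hij)
    exact div_le_div_of_nonneg_left (by positivity) (by positivity) (by linarith only [hP0])
  have ho : Ok (6 * (6 * P) ^ 4) T (2 * Lx T) (t3 m) (t3 (r3 h)) := by
    refine ok_of_reg (by linarith only [hP1]) hT0 ?_ hreg
    refine le_trans (le_of_eq ?_) c1
    ring
  have hKe : 6 * (6 * P) ^ 4 = 7776 * P ^ 4 := by ring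
  rw [hKe] at ho
  have hVT : 2 * Lx T ≤ T := by
    have := mul_le_mul_of_nonneg_right hP1 hLx.le
    linarith only [this, c5, hLx]
  have hP4 : 1 ≤ P ^ 4 := one_le_pow₀ hP1
  obtain ⟨A, hA1, hA2⟩ := gA_supp hg
  have hA := (Pool.Agent.F5H.H41.chk M hM).2.2.1 _ hA1
  have hm2 : T ≤ 12 * P * ‖t3 m 2‖ := by
    have h1 := s4 0 2 (by decide)
    have h2 := dr_le2 (t3 m 0) (t3 m 2)
    have h3 : ‖t3 m 0‖ * ‖t3 m 2‖ ≤ 3 * T * ‖t3 m 2‖ :=
      mul_le_mul_of_nonneg_right (s3 0) (norm_nonneg _)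
    have h4 : T ^ 2 / (2 * P) ≤ 6 * T * ‖t3 m 2‖ := by linarith only [h1, h2, h3]
    rw [div_le_iff₀ (by positivity)] at h4
    have h5 : T * T ≤ 12 * P * ‖t3 m 2‖ * T := by linarith only [h4]
    exact le_of_mul_le_mul_right h5 hT0
  obtain ⟨z1, z2, z3⟩ := supp2 hM hT0 hRx he hP1 (by positivity) hVT ho s3 hm2 c2 c3 c4 hA hA2
  refine ⟨?_, s1, s2, s3, fun i j hij => ?_, z1, z2, z3⟩
  · have hKK : 7776 * P ^ 4 ≤ 7776 * C1 * P ^ 4 := by
      have := mul_le_mul_of_nonneg_right hC1 (by linarith only [hP4] : 0 ≤ P ^ 4)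
      linarith only [this]
    have ho' := Ok_mono hT0 hKK ho
    have hK1 : C1 ≤ 7776 * C1 * P ^ 4 := by
      have := mul_le_mul_of_nonneg_left hP4 (by linarith only [hC1] : 0 ≤ C1)
      linarith only [this, hC1]
    have hVK : 2 * Lx T ≤ 7776 * C1 * P ^ 4 * T := by
      have h2 : 1 * T ≤ 7776 * C1 * P ^ 4 * T :=
        mul_le_mul_of_nonneg_right (by linarith only [hK1, hC1]) hT0.le
      linarith only [h2, hVT]
    have hgl := gA_le hM (K := 7776 * C1 * P ^ 4) (hMC.trans hK1) (p := p) (e := e)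
      (hBC.trans hK1) (heC.trans hK1) hT0 hRx0 he hVK ho'
    rw [hfx]
    calc WC (Lx T) W x (x + r3 h) * gA M (Rx T) e p (r3 h) m
        ≤ 64 * (384 * (7776 * C1 * P ^ 4) ^ 10 * (T ^ 4)⁻¹) :=
          mul_le_mul (hWC.1 _ _).2 hgl.2 hgl.1 (by norm_num)
      _ = 64 * (384 * (7776 * C1) ^ 10) * P ^ 40 * (T ^ 4)⁻¹ := by ring
      _ ≤ Q * (T ^ 4)⁻¹ := mul_le_mul_of_nonneg_right c6 (by positivity)
  · have h1 := s4 i j hij
    rw [div_le_iff₀ (by positivity)] at h1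
    have h2 : |dr (t3 m i) (t3 m j)| * (2 * P) ≤ |dr (t3 m i) (t3 m j)| * Q :=
      mul_le_mul_of_nonneg_left (by linarith only [c7, hP0]) (abs_nonneg _)
    linarith only [h1, h2]

/-- everything about the size and the support of `fx`, loss `T ^ ep` -/
theorem fup_core {ep : ℝ} (hep : 0 < ep) (hep1 : ep ≤ 1) (M : ℝ) (hM : 1 ≤ M) (e : ℝ)
    (he : 0 < e) (p : ℝ × ℝ) : ∃ T0 : ℝ, 1 ≤ T0 ∧ ∀ T : ℝ, T0 ≤ T → ∀ W : R6 → ℝ,
    Adm T (ep / 100) W → ∀ h : Z6, ∀ x : R6,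
    0 ≤ fx M T e p W h x ∧ fx M T e p W h x ≤ T ^ ep * (T ^ 4)⁻¹ ∧ 3 ≤ T ^ ep ∧
    (fx M T e p W h x ≠ 0 → ‖r3 h‖ ≤ 2 * Lx T ∧ ‖x‖ ≤ 3 * T ∧
      (∀ l, ‖t3 (mid (r3 h) x) l‖ ≤ 3 * T) ∧
      (∀ i j, i ≠ j → T ^ 2 ≤ T ^ ep * |dr (t3 (mid (r3 h) x) i) (t3 (mid (r3 h) x) j)|) ∧
      Zf T (t3 (mid (r3 h) x)) (t3 (r3 h)) ∈ KM (T ^ ep) ∧
      (∀ i j, |Ff T (t3 (mid (r3 h) x)) (t3 (r3 h)) i -
        Ff T (t3 (mid (r3 h) x)) (t3 (r3 h)) j| ≤ T ^ ep) ∧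
      ∀ i, |Ff T (t3 (mid (r3 h) x)) (t3 (r3 h)) i| ≤ T ^ ep * Rx T) := by
  have hB0 : 0 ≤ B0 e p := by unfold B0; positivity
  have hC1' : 1 ≤ 1 + M + B0 e p + e := by linarith
  -- asymptotic inequalities
  have a1 := ev_pow 31104 (show 4 * (ep / 100) + 2 * (277 / 500) < (2 : ℝ) by linarith)
  have a2 := ev_pow (32 * (M * 7776 * B0 e p)) (show 4 * (ep / 100) < (2 : ℝ) by linarith)
  have a3 := ev_pow (24 * (7776 * 2)) (show 4 * (ep / 100) + 277 / 500 < (1 : ℝ) by linarith)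
  have a4 := ev_pow (864 * M ^ 2 + 1152 * (M * B0 e p) + 288 * (M * (1 + e + 3 * B0 e p)))
    (show 2 * (ep / 100) < ep by linarith)
  have a5 := ev_pow 20 (show ep / 100 + 277 / 500 < (1 : ℝ) by linarith)
  have a6 := ev_pow (64 * (384 * (7776 * (1 + M + B0 e p + e)) ^ 10))
    (show 40 * (ep / 100) < ep by linarith)
  have a7 := ev_pow 3 (show ep / 100 < ep by linarith)
  obtain ⟨T1, hT1⟩ := eventually_atTop.1 (((a1.and a2).and (a3.and a4)).and ((a5.and a6).and a7))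
  refine ⟨max 1 T1, le_max_left _ _, ?_⟩
  intro T hT W hW h x
  obtain ⟨⟨⟨b1, b2⟩, b3, b4⟩, ⟨b5, b6⟩, b7⟩ := hT1 T ((le_max_right _ _).trans hT)
  have hT1' : 1 ≤ T := (le_max_left _ _).trans hT
  have hT0 : 0 < T := by linarith only [hT1']
  obtain ⟨Wm, W01, Wg, Wl⟩ := hW
  have hP1 : 1 ≤ T ^ (ep / 100) := Real.one_le_rpow hT1' (by positivity)
  have hLx : 0 < Lx T := by unfold Lx; positivity
  have hRx := Rx_ge hT1'
  have hRx0 : 0 < Rx T := by linarith only [hRx]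
  have Pk : ∀ k : ℕ, (T ^ (ep / 100)) ^ k = T ^ (k * (ep / 100)) := by
    intro k
    rw [pw_pow hT0]
    congr 1
    ring
  have P4 : (T ^ (ep / 100)) ^ 4 = T ^ (4 * (ep / 100)) := by
    have := Pk 4
    push_cast at this
    exact this
  have P2 : (T ^ (ep / 100)) ^ 2 = T ^ (2 * (ep / 100)) := by
    have := Pk 2
    push_cast at this
    exact this
  have P40 : (T ^ (ep / 100)) ^ 40 = T ^ (40 * (ep / 100)) := by
    have := Pk 40
    push_cast at this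
    exact this
  have L2 : Lx T ^ 2 = T ^ (2 * (277 / 500) : ℝ) := by
    unfold Lx
    rw [pw_pow hT0]
    congr 1
    push_cast
    ring
  have T2 : T ^ (2 : ℝ) = T ^ 2 := by
    rw [← Real.rpow_natCast]
    norm_num
  have T1 : T ^ (1 : ℝ) = T := Real.rpow_one T
  have c1 : 31104 * ((T ^ (ep / 100)) ^ 4 * Lx T ^ 2) ≤ T ^ 2 := by
    rw [P4, L2, ← Real.rpow_add hT0, ← T2]
    exact b1
  have c2 : 32 * (M * (7776 * (T ^ (ep / 100)) ^ 4) * B0 e p) ≤ T ^ 2 := by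
    rw [P4, ← T2]
    refine le_trans (le_of_eq ?_) b2
    ring
  have c3 : 24 * ((7776 * (T ^ (ep / 100)) ^ 4) * (2 * Lx T)) ≤ T := by
    have h2 : 24 * (7776 * 2) * (T ^ (4 * (ep / 100)) * T ^ (277 / 500 : ℝ)) ≤ T := by
      rw [← Real.rpow_add hT0]
      exact b3.trans (le_of_eq T1)
    rw [P4]
    unfold Lx
    refine le_trans (le_of_eq ?_) h2
    ring
  have c4 : 864 * (M ^ 2 * (T ^ (ep / 100)) ^ 2) + 1152 * (M * B0 e p * (T ^ (ep / 100)) ^ 2) +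
      288 * (M * (1 + e + 3 * B0 e p) * (T ^ (ep / 100)) ^ 2) ≤ T ^ ep := by
    rw [P2]
    refine le_trans (le_of_eq ?_) b4
    ring
  have c5 : 20 * (T ^ (ep / 100) * Lx T) ≤ T := by
    have h2 : 20 * (T ^ (ep / 100) * T ^ (277 / 500 : ℝ)) ≤ T := by
      rw [← Real.rpow_add hT0]
      exact b5.trans (le_of_eq T1)
    exact h2
  have c6 : 64 * (384 * (7776 * (1 + M + B0 e p + e)) ^ 10) * (T ^ (ep / 100)) ^ 40 ≤
      T ^ ep := by
    rw [P40]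
    exact b6
  have hWC := Pool.Agent.F5H.H56.wc Pool.Agent.F5H.H41.clf hLx Wm W01
  have hnn : 0 ≤ fx M T e p W h x := by
    rw [fx_eq]
    exact mul_nonneg (hWC.2.1 _ _).1 (gA_nonneg hM hRx0 p _ _)
  have main := fun hne => fup_real (h := h) (x := x) hM he hT1' hP1 hC1'
    (show M ≤ 1 + M + B0 e p + e by linarith) (show B0 e p ≤ 1 + M + B0 e p + e by linarith)
    (show e ≤ 1 + M + B0 e p + e by linarith) hWC.2 Wg c1 c2 c3 c4 c5 c6 b7 hne
  refine ⟨hnn, ?_, ?_, fun hne => (main hne).2⟩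
  · by_cases hz : fx M T e p W h x = 0
    · rw [hz]
      positivity
    · exact (main hz).1
  · linarith only [b7, hP1]

theorem Adm_mono {T a b : ℝ} (hT : 1 ≤ T) (hab : a ≤ b) {W : R6 → ℝ} (hW : Adm T a W) :
    Adm T b W := by
  obtain ⟨h1, h2, h3, h4⟩ := hW
  have hT0 : 0 < T := by linarith
  refine ⟨h1, h2, fun c hc => ?_, fun c c' => ?_⟩
  · obtain ⟨g1, g2⟩ := h3 c hc
    have hle : T ^ 2 / T ^ b ≤ T ^ 2 / T ^ a := by
      apply div_le_div_of_nonneg_left (by positivity) (by positivity)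
      exact Real.rpow_le_rpow_of_exponent_le hT hab
    exact ⟨g1, hle.trans g2.1, hle.trans g2.2.1, hle.trans g2.2.2⟩
  · refine (h4 c c').trans (mul_le_mul_of_nonneg_right ?_ (norm_nonneg _))
    exact Real.rpow_le_rpow_of_exponent_le hT (by linarith)

/-- FUPe -/
theorem fupe : Pool.Agent.F5H.BN.FUPeStmt := by
  intro ep hep
  set ep' := min ep 1 with hep'
  have h0 : 0 < ep' := lt_min hep one_pos
  refine ⟨ep' / 100, by positivity, ?_⟩
  intro M hM e he p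
  obtain ⟨T0, hT0, H⟩ := fup_core h0 (min_le_right _ _) M hM e he p
  refine ⟨T0, hT0, ?_⟩
  intro T hT W hW h x
  have hT1 : 1 ≤ T := hT0.trans hT
  obtain ⟨i1, i2, i4, i3⟩ := H T hT W hW h x
  have hle : T ^ ep' ≤ T ^ ep := Real.rpow_le_rpow_of_exponent_le hT1 (min_le_left _ _)
  have h1e : 1 ≤ T ^ ep := Real.one_le_rpow hT1 hep.le
  have h1e' : 0 < T ^ ep' := by positivity
  refine ⟨i1, i2.trans (mul_le_mul_of_nonneg_right hle (by positivity)), fun hne => ?_⟩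
  obtain ⟨s1, s2, s3, s4, s5, s6, s7⟩ := i3 hne
  have hLx : 0 < Lx T := by unfold Lx; positivity
  refine ⟨by linarith, by linarith, ⟨fun l => ?_, fun i j hij => ?_, fun x => ?_,
    fun i j => (s6 i j).trans hle⟩⟩
  · refine (s3 l).trans (mul_le_mul_of_nonneg_right (i4.trans hle) (by linarith))
  · exact (s4 i j hij).trans (mul_le_mul_of_nonneg_right hle (abs_nonneg _))
  · obtain ⟨k1, k2⟩ := s5 x
    have hn : 0 ≤ nr x := by unfold nr; positivity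
    refine ⟨le_trans ?_ k1, k2.trans (mul_le_mul_of_nonneg_right hle hn)⟩
    exact div_le_div_of_nonneg_left hn h1e' hle

theorem e0_pos : 0 < rho0 / 10000 := div_pos rho0_pos (by norm_num)

theorem e0_le : rho0 / 10000 ≤ 1 := by
  have := rho0_le
  linarith

/-- FUP -/
theorem fup : FUPStmt := by
  refine ⟨rho0 / 10000 / 100, div_pos e0_pos (by norm_num), ?_⟩
  intro M hM e he p
  obtain ⟨T0, hT0, H⟩ := fup_core e0_pos e0_le M hM e he p
  refine ⟨T0, hT0, ?_⟩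
  intro T hT W hW h x
  have hT1 : 1 ≤ T := hT0.trans hT
  have hTp : 0 < T := by linarith
  obtain ⟨i1, i2, i4, i3⟩ := H T hT W hW h x
  change fx M T e p W h x ≤ Px T * (T ^ 4)⁻¹ at i2
  change 3 ≤ Px T at i4
  have hLx : 0 < Lx T := by unfold Lx; positivity
  have hRx := Rx_ge hT1
  have hP0 : 0 < Px T := by linarith
  refine ⟨i1, i2.trans (mul_le_mul_of_nonneg_right ?_ (by positivity)), fun hne => ?_⟩
  · exact le_self_pow₀ (by linarith) (by norm_num)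
  obtain ⟨s1, s2, s3, s4, s5, s6, s7⟩ := i3 hne
  refine ⟨fun l => ?_, fun i j hij => ?_, by linarith, fun i j => ?_, fun i => ?_, fun x => ?_⟩
  · exact (s3 l).trans (by linarith)
  · have h1 : T ^ 2 ≤ Px T * |dr (t3 (mid (r3 h) x) i) (t3 (mid (r3 h) x) j)| := s4 i j hij
    rw [div_le_iff₀ (by positivity)]
    have h2 : 0 ≤ |dr (t3 (mid (r3 h) x) i) (t3 (mid (r3 h) x) j)| := abs_nonneg _
    nlinarith
  · have h1 := s6 i j
    change _ ≤ Px T at h1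
    linarith
  · have h1 := s7 i
    change _ ≤ Px T * Rx T at h1
    have h2 : 0 ≤ Px T * Rx T := by positivity
    linarith
  · obtain ⟨k1, k2⟩ := s5 x
    change nr x / Px T ≤ _ at k1
    change _ ≤ Px T * nr x at k2
    have hn : 0 ≤ nr x := by unfold nr; positivity
    have hle : Px T ≤ 4 * Px T := by linarith
    exact ⟨(div_le_div_of_nonneg_left hn hP0 hle).trans k1,
      k2.trans (mul_le_mul_of_nonneg_right hle hn)⟩

theorem Ok_of_Lev {T : ℝ} (hT : 1 ≤ T) (hs : 14406 * (Px T ^ 4 * (7 * Lx T) ^ 2) ≤ T ^ 2)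
    {h m : R6} (hl : Lev 7 T h m) : Ok (14406 * Px T ^ 4) T (7 * Lx T) (t3 m) (t3 h) := by
  have hT0 : 0 < T := by linarith
  have hP : 1 ≤ Px T := Real.one_le_rpow hT e0_pos.le
  have hreg : Reg (7 * Px T) T (7 * Lx T) (t3 m) (t3 h) := by
    refine ⟨fun l => (hl.hm l).trans ?_, hl.hd, fun l => (t3_norm _ l).trans hl.hh⟩
    have := mul_le_mul_of_nonneg_right hP hT0.le
    linarith only [this, hT0]
  have ho := ok_of_reg (by linarith) hT0 (by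
    refine le_trans (le_of_eq ?_) hs
    ring) hreg
  have e : 6 * (7 * Px T) ^ 4 = 14406 * Px T ^ 4 := by ring
  rw [e] at ho
  exact ho

/-- LK with real parameters -/
theorem lk_real {M e T P C1 D eta : ℝ} {p : ℝ × ℝ} {W : R6 → ℝ} {h : Z6} {x v : R6}
    (hM : 1 ≤ M) (he : 0 < e) (hT1 : 1 ≤ T) (hP1 : 1 ≤ P) (hC1 : 1 ≤ C1)
    (hMC : M ≤ C1) (hBC : B0 e p ≤ C1) (heC : e ≤ C1) (hW : Measurable W)
    (h01 : ∀ c, 0 ≤ W c ∧ W c ≤ 1) (Wl : ∀ c c', |W c - W c'| ≤ D / T * ‖c - c'‖)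
    (hD : D ≤ P)
    (ho : Ok (14406 * P ^ 4) T (7 * Lx T) (t3 (mid (r3 h) x)) (t3 (r3 h)))
    (ho' : Ok (14406 * P ^ 4) T (7 * Lx T) (t3 (mid (r3 h) (x + v))) (t3 (r3 h)))
    (he0 : 0 ≤ eta) (he1 : eta ≤ 1) (hv : ‖v‖ ≤ eta * T) (hVe : 7 * Lx T ≤ eta * T)
    (hF : ∀ i j, |(Ff T (t3 (mid (r3 h) (x + v))) (t3 (r3 h)) i -
        Ff T (t3 (mid (r3 h) (x + v))) (t3 (r3 h)) j) -
      (Ff T (t3 (mid (r3 h) x)) (t3 (r3 h)) i - Ff T (t3 (mid (r3 h) x)) (t3 (r3 h)) j)| ≤ eta)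
    (hF2 : |Ff T (t3 (mid (r3 h) (x + v))) (t3 (r3 h)) 2 -
      Ff T (t3 (mid (r3 h) x)) (t3 (r3 h)) 2| ≤ eta * Rx T) :
    |fx M T e p W h (x + v) - fx M T e p W h x| ≤
      (64 * (384 * (14406 * C1) ^ 10) + 64 * (4 * 10 ^ 6 * (14406 * C1) ^ 18)) * P ^ 72 *
        (T ^ 4)⁻¹ * eta := by
  have hT0 : 0 < T := by linarith
  have hP0 : 0 < P := by linarith
  have hLx : 0 < Lx T := by unfold Lx; positivity
  have hRx := Rx_ge hT1
  have hRx0 : 0 < Rx T := by linarith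
  have hP4 : 1 ≤ P ^ 4 := one_le_pow₀ hP1
  have hKK : 14406 * P ^ 4 ≤ 14406 * C1 * P ^ 4 := by
    have := mul_le_mul_of_nonneg_right hC1 (by linarith only [hP4] : 0 ≤ P ^ 4)
    linarith only [this]
  have hK1 : C1 ≤ 14406 * C1 * P ^ 4 := by
    have := mul_le_mul_of_nonneg_left hP4 (by linarith only [hC1] : 0 ≤ C1)
    linarith only [this, hC1]
  have em : mid (r3 h) (x + v) = mid (r3 h) x + v := by
    unfold mid
    abel
  rw [em] at ho' hF hF2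
  have h1 := Ok_mono hT0 hKK ho
  have h2 := Ok_mono hT0 hKK ho'
  set K := 14406 * C1 * P ^ 4 with hKd
  set m := mid (r3 h) x with hm
  have hVK : 7 * Lx T ≤ K * T := by
    have e1 : eta * T ≤ 1 * T := mul_le_mul_of_nonneg_right he1 hT0.le
    have e2 : 1 * T ≤ K * T := mul_le_mul_of_nonneg_right (by linarith only [hK1, hC1]) hT0.le
    linarith only [e1, e2, hVe]
  have g1 := gA_le hM (hMC.trans hK1) (hBC.trans hK1) (heC.trans hK1) hT0 hRx0 he hVK h2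
  have g2 := gA_move hT1 (hMC.trans hK1) hM (hBC.trans hK1) (heC.trans hK1) he hRx he0 he1 hv
    (by positivity) hVe h1 h2 hF hF2
  have hWC := Pool.Agent.F5H.H56.wc Pool.Agent.F5H.H41.clf hLx hW h01
  have w1 := hWC.2.1 x (x + r3 h)
  have w2 := WC_lip hLx hW h01 Wl x (x + r3 h) v
  have e1 : x + v + r3 h = x + r3 h + v := by abel
  rw [fx_eq, fx_eq, em, e1, ← hm]
  set w := WC (Lx T) W x (x + r3 h) with hw
  set w' := WC (Lx T) W (x + v) (x + r3 h + v) with hw'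
  set g := gA M (Rx T) e p (r3 h) m with hg
  set g' := gA M (Rx T) e p (r3 h) (m + v) with hg'
  have hdw : |w' - w| ≤ 64 * (P * eta) := by
    refine w2.trans ?_
    have : D / T * ‖v‖ ≤ P * eta := by
      calc D / T * ‖v‖ ≤ P / T * (eta * T) :=
            mul_le_mul (div_le_div_of_nonneg_right hD hT0.le) hv (norm_nonneg _) (by positivity)
        _ = P * eta := by field_simp
    linarith only [this]
  have e3 : w' * g' - w * g = (w' - w) * g' + w * (g' - g) := by ring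
  rw [e3]
  refine (abs_add_le _ _).trans ?_
  rw [abs_mul, abs_mul, abs_of_nonneg g1.1, abs_of_nonneg w1.1]
  have t1 : |w' - w| * g' ≤ 64 * (P * eta) * (384 * K ^ 10 * (T ^ 4)⁻¹) :=
    mul_le_mul hdw g1.2 g1.1 (by positivity)
  have t2 : w * |g' - g| ≤ 64 * (4 * 10 ^ 6 * K ^ 18 * (T ^ 4)⁻¹ * eta) :=
    mul_le_mul w1.2 g2 (abs_nonneg _) (by norm_num)
  have e4 : 64 * (P * eta) * (384 * K ^ 10 * (T ^ 4)⁻¹) =
      64 * (384 * (14406 * C1) ^ 10) * P ^ 41 * (T ^ 4)⁻¹ * eta := by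
    rw [hKd]
    ring
  have e5 : 64 * (4 * 10 ^ 6 * K ^ 18 * (T ^ 4)⁻¹ * eta) =
      64 * (4 * 10 ^ 6 * (14406 * C1) ^ 18) * P ^ 72 * (T ^ 4)⁻¹ * eta := by
    rw [hKd]
    ring
  rw [e4] at t1
  rw [e5] at t2
  have t3 : 64 * (384 * (14406 * C1) ^ 10) * P ^ 41 * (T ^ 4)⁻¹ * eta ≤
      64 * (384 * (14406 * C1) ^ 10) * P ^ 72 * (T ^ 4)⁻¹ * eta := by
    have : P ^ 41 ≤ P ^ 72 := pow_le_pow_right₀ hP1 (by norm_num)
    gcongr
  linarith only [t1, t2, t3]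

/-- LK -/
theorem lk : LKStmt := by
  refine ⟨rho0 / 10000, e0_pos, ?_⟩
  intro M hM e he p
  have hB0 : 0 ≤ B0 e p := by unfold B0; positivity
  have hC1' : 1 ≤ 1 + M + B0 e p + e := by linarith
  have hr1 := rho0_pos
  have hr2 := rho0_le
  have a1 := ev_pow (14406 * 49) (show 4 * (rho0 / 10000) + 2 * (277 / 500) < (2 : ℝ) by linarith)
  have a2 := ev_pow 7 (show (277 / 500 : ℝ) + 1 / 100 < 1 by norm_num)
  have a3 := ev_pow (64 * (384 * (14406 * (1 + M + B0 e p + e)) ^ 10) +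
    64 * (4 * 10 ^ 6 * (14406 * (1 + M + B0 e p + e)) ^ 18))
    (show 72 * (rho0 / 10000) < 200 * (rho0 / 10000) by linarith)
  obtain ⟨T1, hT1⟩ := eventually_atTop.1 ((a1.and a2).and a3)
  refine ⟨max 1 T1, le_max_left _ _, ?_⟩
  intro T hT W hW h x v hL1 hL2 eta hη1 hη2 hv hF hF2
  obtain ⟨⟨b1, b2⟩, b3⟩ := hT1 T ((le_max_right _ _).trans hT)
  have hT1' : 1 ≤ T := (le_max_left _ _).trans hT
  have hT0 : 0 < T := by linarith only [hT1']
  obtain ⟨Wm, W01, -, Wl⟩ := hW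
  have Pk : ∀ k : ℕ, Px T ^ k = T ^ (k * (rho0 / 10000)) := by
    intro k
    unfold Px
    rw [pw_pow hT0]
    congr 1
    ring
  have P4 : Px T ^ 4 = T ^ (4 * (rho0 / 10000)) := by
    have := Pk 4
    push_cast at this
    exact this
  have P72 : Px T ^ 72 = T ^ (72 * (rho0 / 10000)) := by
    have := Pk 72
    push_cast at this
    exact this
  have P200 : Px T ^ 200 = T ^ (200 * (rho0 / 10000)) := by
    have := Pk 200
    push_cast at this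
    exact this
  have L2 : Lx T ^ 2 = T ^ (2 * (277 / 500) : ℝ) := by
    unfold Lx
    rw [pw_pow hT0]
    congr 1
    push_cast
    ring
  have T2 : T ^ (2 : ℝ) = T ^ 2 := by
    rw [← Real.rpow_natCast]
    norm_num
  have hP1 : 1 ≤ Px T := Real.one_le_rpow hT1' e0_pos.le
  have c1 : 14406 * (Px T ^ 4 * (7 * Lx T) ^ 2) ≤ T ^ 2 := by
    have h2 : 14406 * 49 * (T ^ (4 * (rho0 / 10000)) * T ^ (2 * (277 / 500) : ℝ)) ≤ T ^ 2 := by
      rw [← Real.rpow_add hT0, ← T2]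
      exact b1
    rw [P4, mul_pow, L2]
    refine le_trans (le_of_eq ?_) h2
    ring
  have hD : T ^ (rho0 / 10000 - 1) = Px T / T := by
    unfold Px
    rw [Real.rpow_sub hT0, Real.rpow_one]
  rw [hD] at Wl
  have hη0 : 0 ≤ eta := le_trans (by positivity) hη1
  have hVe : 7 * Lx T ≤ eta * T := by
    have h1 : T ^ (-(1 / 100 : ℝ)) * T ≤ eta * T := mul_le_mul_of_nonneg_right hη1 hT0.le
    have h2 : 7 * Lx T ≤ T ^ (-(1 / 100 : ℝ)) * T := by
      have h3 : T ^ (1 : ℝ) = T ^ (-(1 / 100 : ℝ)) * T * T ^ (1 / 100 : ℝ) := by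
        have e1 : T ^ (-(1 / 100 : ℝ)) * T ^ (1 / 100 : ℝ) = 1 := by
          rw [← Real.rpow_add hT0]
          norm_num
        rw [Real.rpow_one]
        calc T = T * (T ^ (-(1 / 100 : ℝ)) * T ^ (1 / 100 : ℝ)) := by rw [e1, mul_one]
          _ = _ := by ring
      have h4 : 7 * (Lx T * T ^ (1 / 100 : ℝ)) ≤ T ^ (-(1 / 100 : ℝ)) * T * T ^ (1 / 100 : ℝ) := by
        rw [← h3]
        refine le_trans (le_of_eq ?_) b2
        unfold Lx
        rw [Real.rpow_add hT0]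
      have h5 : 0 < T ^ (1 / 100 : ℝ) := by positivity
      have h6 : (7 * Lx T) * T ^ (1 / 100 : ℝ) ≤
          (T ^ (-(1 / 100 : ℝ)) * T) * T ^ (1 / 100 : ℝ) := by
        linarith only [h4]
      exact le_of_mul_le_mul_right h6 h5
    exact h2.trans h1
  have key := lk_real (h := h) (x := x) (v := v) (p := p) hM he hT1' hP1 hC1'
    (show M ≤ 1 + M + B0 e p + e by linarith) (show B0 e p ≤ 1 + M + B0 e p + e by linarith)
    (show e ≤ 1 + M + B0 e p + e by linarith) Wm W01 Wl (le_refl (Px T))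
    (Ok_of_Lev hT1' c1 hL1) (Ok_of_Lev hT1' c1 hL2) hη0 hη2 hv hVe hF hF2
  refine key.trans ?_
  have c3 : (64 * (384 * (14406 * (1 + M + B0 e p + e)) ^ 10) +
    64 * (4 * 10 ^ 6 * (14406 * (1 + M + B0 e p + e)) ^ 18)) * Px T ^ 72 ≤ Px T ^ 200 := by
    rw [P72, P200]
    exact b3
  exact mul_le_mul_of_nonneg_right (mul_le_mul_of_nonneg_right c3 (by positivity)) hη0

end Pool.Agent.F5H.LIP
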