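import Pool.Agent.Helper85_F5H.L1

/-!
MP_f5cbfa_nt, squad F5H, block LIP: algebra of the determinants. The exact second order expansion
of `Q` along a displacement `μ m + v'`.
-/

set_option autoImplicit false

open MeasureTheory Filter Topology

namespace Pool.Agent.F5H.LIP

open Pool.Agent.BTL Pool.Agent.F5S Pool.Agent.F5H

theorem n3 (a : ℝ × ℝ × ℝ) : |a.1| ≤ ‖a‖ ∧ |a.2.1| ≤ ‖a‖ ∧ |a.2.2| ≤ ‖a‖ := by
  have h : ‖a‖ = max |a.1| (max |a.2.1| |a.2.2|) := rfl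
  rw [h]
  exact ⟨le_max_left _ _, (le_max_left _ _).trans (le_max_right _ _),
    (le_max_right _ _).trans (le_max_right _ _)⟩

theorem n3_le {a : ℝ × ℝ × ℝ} {c : ℝ} (h1 : |a.1| ≤ c) (h2 : |a.2.1| ≤ c) (h3 : |a.2.2| ≤ c) :
    ‖a‖ ≤ c := max_le h1 (max_le h2 h3)

theorem n2 (a : ℝ × ℝ) : |a.1| ≤ ‖a‖ ∧ |a.2| ≤ ‖a‖ := by
  have h : ‖a‖ = max |a.1| |a.2| := rfl
  rw [h]
  exact ⟨le_max_left _ _, le_max_right _ _⟩

theorem n2_le {a : ℝ × ℝ} {c : ℝ} (h1 : |a.1| ≤ c) (h2 : |a.2| ≤ c) : ‖a‖ ≤ c := max_le h1 h2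

theorem n6 (a : R6) : ‖a.1‖ ≤ ‖a‖ ∧ ‖a.2.1‖ ≤ ‖a‖ ∧ ‖a.2.2‖ ≤ ‖a‖ := by
  have h : ‖a‖ = max ‖a.1‖ (max ‖a.2.1‖ ‖a.2.2‖) := rfl
  rw [h]
  exact ⟨le_max_left _ _, (le_max_left _ _).trans (le_max_right _ _),
    (le_max_right _ _).trans (le_max_right _ _)⟩

theorem n6_le {a : R6} {c : ℝ} (h1 : ‖a.1‖ ≤ c) (h2 : ‖a.2.1‖ ≤ c) (h3 : ‖a.2.2‖ ≤ c) :
    ‖a‖ ≤ c := max_le h1 (max_le h2 h3)

theorem abs_mul3_le {a b c x y z : ℝ} (ha : |a| ≤ x) (hb : |b| ≤ y) (hc : |c| ≤ z) :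
    |a * b * c| ≤ x * y * z := by
  rw [abs_mul, abs_mul]
  have hx := (abs_nonneg a).trans ha
  have hy := (abs_nonneg b).trans hb
  exact mul_le_mul (mul_le_mul ha hb (abs_nonneg _) hx) hc (abs_nonneg _) (mul_nonneg hx hy)

theorem d3_le {a b c : ℝ × ℝ × ℝ} {x y z : ℝ} (ha : ‖a‖ ≤ x) (hb : ‖b‖ ≤ y) (hc : ‖c‖ ≤ z) :
    |d3 a b c| ≤ 6 * (x * y * z) := by
  have a1 := (n3 a).1.trans ha
  have a2 := (n3 a).2.1.trans ha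
  have a3 := (n3 a).2.2.trans ha
  have b1 := (n3 b).1.trans hb
  have b2 := (n3 b).2.1.trans hb
  have b3 := (n3 b).2.2.trans hb
  have c1 := (n3 c).1.trans hc
  have c2 := (n3 c).2.1.trans hc
  have c3 := (n3 c).2.2.trans hc
  have t1 := abs_le.1 (abs_mul3_le a2 b3 c1)
  have t2 := abs_le.1 (abs_mul3_le a3 b2 c1)
  have t3 := abs_le.1 (abs_mul3_le a3 b1 c2)
  have t4 := abs_le.1 (abs_mul3_le a1 b3 c2)
  have t5 := abs_le.1 (abs_mul3_le a1 b2 c3)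
  have t6 := abs_le.1 (abs_mul3_le a2 b1 c3)
  have e : d3 a b c = a.2.1 * b.2.2 * c.1 - a.2.2 * b.2.1 * c.1 + (a.2.2 * b.1 * c.2.1 -
      a.1 * b.2.2 * c.2.1) + (a.1 * b.2.1 * c.2.2 - a.2.1 * b.1 * c.2.2) := by
    simp only [d3, dot, cr]
    ring
  rw [e, abs_le]
  constructor <;> linarith [t1.1, t1.2, t2.1, t2.2, t3.1, t3.2, t4.1, t4.2, t5.1, t5.2, t6.1, t6.2]

theorem d3_add1 (a a' b c : ℝ × ℝ × ℝ) : d3 (a + a') b c = d3 a b c + d3 a' b c := by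
  simp only [d3, dot, cr, Prod.fst_add, Prod.snd_add]
  ring

theorem d3_add2 (a b b' c : ℝ × ℝ × ℝ) : d3 a (b + b') c = d3 a b c + d3 a b' c := by
  simp only [d3, dot, cr, Prod.fst_add, Prod.snd_add]
  ring

theorem d3_add3 (a b c c' : ℝ × ℝ × ℝ) : d3 a b (c + c') = d3 a b c + d3 a b c' := by
  simp only [d3, dot, cr, Prod.fst_add, Prod.snd_add]
  ring

theorem d3_smul1 (t : ℝ) (a b c : ℝ × ℝ × ℝ) : d3 (t • a) b c = t * d3 a b c := by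
  simp only [d3, dot, cr, Prod.smul_fst, Prod.smul_snd, smul_eq_mul]
  ring

theorem d3_smul2 (t : ℝ) (a b c : ℝ × ℝ × ℝ) : d3 a (t • b) c = t * d3 a b c := by
  simp only [d3, dot, cr, Prod.smul_fst, Prod.smul_snd, smul_eq_mul]
  ring

theorem d3_smul3 (t : ℝ) (a b c : ℝ × ℝ × ℝ) : d3 a b (t • c) = t * d3 a b c := by
  simp only [d3, dot, cr, Prod.smul_fst, Prod.smul_snd, smul_eq_mul]
  ring

/-- the exact expansion -/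
theorem G3_exp (X Y Z kX kY kZ gX gY z rX rY qX qY : ℝ × ℝ × ℝ) (lam mu nu : ℝ) :
    G3 (nu ^ 2 • X + (nu • kX + rX)) (nu ^ 2 • Y + (nu • kY + rY)) (nu • Z + kZ)
      (nu • ((2 * lam) • X + gX) + (lam • kX + qX)) (nu • ((2 * lam) • Y + gY) + (lam • kY + qY))
      (lam • Z + z) =
    nu ^ 4 * G3 X Y Z ((2 * lam) • X + gX) ((2 * lam) • Y + gY) (lam • Z + z) +
    4 * lam * nu ^ 3 * (G3 X Y Z ((2 * mu) • X + kX) ((2 * mu) • Y + kY) (mu • Z + kZ) -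
      5 * mu * d3 X Y Z) +
    ((nu ^ 3 * d3 gX kY Z + nu ^ 3 * d3 gX Y kZ +
      nu * d3 ((2 * lam) • X + gX) rY (nu • Z + kZ) +
      nu ^ 2 * d3 ((2 * lam) • X + gX) kY kZ +
      lam * d3 kX (nu • kY + rY) (nu • Z + kZ) + lam * nu ^ 2 * d3 kX Y kZ +
      d3 qX (nu ^ 2 • Y + (nu • kY + rY)) (nu • Z + kZ)) +
    (nu ^ 3 * d3 kX gY Z + nu ^ 3 * d3 X gY kZ +
      nu * d3 rX ((2 * lam) • Y + gY) (nu • Z + kZ) +
      nu ^ 2 * d3 kX ((2 * lam) • Y + gY) kZ +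
      lam * d3 (nu • kX + rX) kY (nu • Z + kZ) + lam * nu ^ 2 * d3 X kY kZ +
      d3 (nu ^ 2 • X + (nu • kX + rX)) qY (nu • Z + kZ)) +
    (nu ^ 3 * d3 kX Y z + nu ^ 3 * d3 X kY z +
      d3 (nu • kX + rX) (nu • kY + rY) (lam • Z + z) +
      nu ^ 2 * d3 rX Y (lam • Z + z) + nu ^ 2 * d3 X rY (lam • Z + z))) := by
  simp only [G3, d3_add1, d3_add2, d3_add3, d3_smul1, d3_smul2, d3_smul3]
  ring

theorem nadd {a b : ℝ × ℝ × ℝ} {x y z : ℝ} (ha : ‖a‖ ≤ x) (hb : ‖b‖ ≤ y) (h : x + y ≤ z) :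
    ‖a + b‖ ≤ z := (norm_add_le a b).trans ((add_le_add ha hb).trans h)

theorem nsmul3 {t : ℝ} {a : ℝ × ℝ × ℝ} {c x z : ℝ} (ht : |t| ≤ c) (ha : ‖a‖ ≤ x)
    (h : c * x ≤ z) : ‖t • a‖ ≤ z := by
  rw [norm_smul, Real.norm_eq_abs]
  exact (mul_le_mul ht ha (norm_nonneg _) ((abs_nonneg _).trans ht)).trans h

theorem abs_sum7 {a b c d e f g A B C D E F G : ℝ} (ha : |a| ≤ A) (hb : |b| ≤ B) (hc : |c| ≤ C)
    (hd : |d| ≤ D) (he : |e| ≤ E) (hf : |f| ≤ F) (hg : |g| ≤ G) :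
    |a + b + c + d + e + f + g| ≤ A + B + C + D + E + F + G := by
  rw [abs_le] at *
  constructor <;> linarith [ha.1, ha.2, hb.1, hb.2, hc.1, hc.2, hd.1, hd.2, he.1, he.2, hf.1,
    hf.2, hg.1, hg.2]

theorem abs_sum5 {a b c d e A B C D E : ℝ} (ha : |a| ≤ A) (hb : |b| ≤ B) (hc : |c| ≤ C)
    (hd : |d| ≤ D) (he : |e| ≤ E) :
    |a + b + c + d + e| ≤ A + B + C + D + E := by
  rw [abs_le] at *
  constructor <;> linarith [ha.1, ha.2, hb.1, hb.2, hc.1, hc.2, hd.1, hd.2, he.1, he.2]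

theorem mul_d3_le {t c : ℝ} {a b d : ℝ × ℝ × ℝ} {x y z : ℝ} (ht : |t| ≤ c) (ha : ‖a‖ ≤ x)
    (hb : ‖b‖ ≤ y) (hd : ‖d‖ ≤ z) : |t * d3 a b d| ≤ c * (6 * (x * y * z)) := by
  rw [abs_mul]
  exact mul_le_mul ht (d3_le ha hb hd) (abs_nonneg _) ((abs_nonneg _).trans ht)

theorem abs_fin {L a b x1 x2 x3 A1 A2 A3 C D : ℝ} (h : L = a + b + (x1 + x2 + x3))
    (h1 : |x1| ≤ A1) (h2 : |x2| ≤ A2) (h3 : |x3| ≤ A3) (hC : A1 + A2 + A3 ≤ C) (hD : C = D) :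
    |L - a - b| ≤ D := by
  rw [h, ← hD]
  rw [abs_le] at *
  constructor <;> linarith [h1.1, h1.2, h2.1, h2.2, h3.1, h3.2]

theorem key_scalar {lam ev ew eta ze : ℝ} (hev : 0 ≤ ev) (hev1 : ev ≤ 1) (hew : 0 ≤ ew)
    (heta : 0 ≤ eta) (heta1 : eta ≤ 1) (hze : 0 ≤ ze) (hl : 0 ≤ lam) :
    96 * (ew * ev) + 36 * ((2 * lam + ew) * eta) + 24 * ((2 * lam + ew) * ev ^ 2) +
      18 * (lam * (ev * (2 * ev + eta))) + 24 * (lam * ev ^ 2) + 126 * ze +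
      (96 * (ew * ev) + 36 * ((2 * lam + ew) * eta) + 24 * ((2 * lam + ew) * ev ^ 2) +
      18 * (lam * (ev * (2 * ev + eta))) + 24 * (lam * ev ^ 2) + 126 * ze) +
      (96 * (ew * ev) + 6 * ((2 * ev + eta) ^ 2 * (lam + ew)) + 48 * (eta * (lam + ew))) ≤
      400 * (ev * ew + lam * (ev ^ 2 + eta) + ew * eta + ze) := by
  have e1 : ew * ev ^ 2 ≤ ew * ev := by
    apply mul_le_mul_of_nonneg_left _ hew
    nlinarith
  have e2 : lam * (ev * eta) ≤ lam * eta := by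
    apply mul_le_mul_of_nonneg_left _ hl
    nlinarith
  have e3 : lam * eta ^ 2 ≤ lam * eta := by
    apply mul_le_mul_of_nonneg_left _ hl
    nlinarith
  have e4 : ew * (ev * eta) ≤ ew * eta := by
    apply mul_le_mul_of_nonneg_left _ hew
    nlinarith
  have e5 : ew * eta ^ 2 ≤ ew * eta := by
    apply mul_le_mul_of_nonneg_left _ hew
    nlinarith
  have p1 : 0 ≤ ev * ew := mul_nonneg hev hew
  have p2 : 0 ≤ lam * ev ^ 2 := mul_nonneg hl (sq_nonneg _)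
  have p3 : 0 ≤ lam * eta := mul_nonneg hl heta
  have p4 : 0 ≤ ew * eta := mul_nonneg hew heta
  linarith only [e1, e2, e3, e4, e5, p1, p2, p3, p4, hze]

/-- the remainder of the expansion -/
theorem G3_rem {X Y Z kX kY kZ gX gY z rX rY qX qY : ℝ × ℝ × ℝ} {lam mu nu al be ev ew eta ze : ℝ}
    (hal : 0 ≤ al) (hbe : 0 ≤ be) (hev : 0 ≤ ev) (hev1 : ev ≤ 1) (hew : 0 ≤ ew) (heta : 0 ≤ eta)
    (heta1 : eta ≤ 1) (hze : 0 ≤ ze) (hnu : |nu| ≤ 2) (hX : ‖X‖ ≤ al) (hY : ‖Y‖ ≤ al)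
    (hZ : ‖Z‖ ≤ be) (hkX : ‖kX‖ ≤ al * ev) (hkY : ‖kY‖ ≤ al * ev) (hkZ : ‖kZ‖ ≤ be * ev)
    (hgX : ‖gX‖ ≤ al * ew) (hgY : ‖gY‖ ≤ al * ew) (hz : ‖z‖ ≤ be * ew) (hrX : ‖rX‖ ≤ al * eta)
    (hrY : ‖rY‖ ≤ al * eta) (hqX : ‖qX‖ ≤ al * ze) (hqY : ‖qY‖ ≤ al * ze) :
    |G3 (nu ^ 2 • X + (nu • kX + rX)) (nu ^ 2 • Y + (nu • kY + rY)) (nu • Z + kZ)
      (nu • ((2 * lam) • X + gX) + (lam • kX + qX)) (nu • ((2 * lam) • Y + gY) + (lam • kY + qY))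
      (lam • Z + z) -
    nu ^ 4 * G3 X Y Z ((2 * lam) • X + gX) ((2 * lam) • Y + gY) (lam • Z + z) -
    4 * lam * nu ^ 3 * (G3 X Y Z ((2 * mu) • X + kX) ((2 * mu) • Y + kY) (mu • Z + kZ) -
      5 * mu * d3 X Y Z)| ≤
    400 * (al ^ 2 * be * (ev * ew + |lam| * (ev ^ 2 + eta) + ew * eta + ze)) := by
  have hn2 : |nu ^ 2| ≤ 4 := by
    rw [abs_pow]
    nlinarith [abs_nonneg nu]
  have hn3 : |nu ^ 3| ≤ 8 := by
    rw [abs_pow]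
    calc |nu| ^ 3 ≤ 2 ^ 3 := pow_le_pow_left₀ (abs_nonneg _) hnu 3
      _ = 8 := by norm_num
  have hl : 0 ≤ |lam| := abs_nonneg lam
  have hln : |lam * nu ^ 2| ≤ |lam| * 4 := by
    rw [abs_mul]
    exact mul_le_mul_of_nonneg_left hn2 hl
  have h2l : |2 * lam| ≤ 2 * |lam| := by
    rw [abs_mul, abs_of_pos (by norm_num : (0 : ℝ) < 2)]
  have a1 : 0 ≤ al * (1 - ev) := mul_nonneg hal (by linarith)
  have a2 : 0 ≤ al * (1 - eta) := mul_nonneg hal (by linarith)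
  have a3 : 0 ≤ be * (1 - ev) := mul_nonneg hbe (by linarith)
  have cZ : ‖nu • Z + kZ‖ ≤ 3 * be :=
    nadd (nsmul3 hnu hZ le_rfl) hkZ (by nlinarith)
  have cX : ‖nu • kX + rX‖ ≤ al * (2 * ev + eta) :=
    nadd (nsmul3 hnu hkX le_rfl) hrX (by nlinarith)
  have cY : ‖nu • kY + rY‖ ≤ al * (2 * ev + eta) :=
    nadd (nsmul3 hnu hkY le_rfl) hrY (by nlinarith)
  have bX : ‖nu ^ 2 • X + (nu • kX + rX)‖ ≤ 7 * al :=
    nadd (nsmul3 hn2 hX le_rfl) cX (by nlinarith)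
  have bY : ‖nu ^ 2 • Y + (nu • kY + rY)‖ ≤ 7 * al :=
    nadd (nsmul3 hn2 hY le_rfl) cY (by nlinarith)
  have dX : ‖(2 * lam) • X + gX‖ ≤ al * (2 * |lam| + ew) :=
    nadd (nsmul3 h2l hX le_rfl) hgX (by nlinarith)
  have dY : ‖(2 * lam) • Y + gY‖ ≤ al * (2 * |lam| + ew) :=
    nadd (nsmul3 h2l hY le_rfl) hgY (by nlinarith)
  have dZ : ‖lam • Z + z‖ ≤ be * (|lam| + ew) :=
    nadd (nsmul3 le_rfl hZ le_rfl) hz (by nlinarith)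
  have r1 := abs_sum7 (mul_d3_le hn3 hgX hkY hZ) (mul_d3_le hn3 hgX hY hkZ)
    (mul_d3_le hnu dX hrY cZ) (mul_d3_le hn2 dX hkY hkZ) (mul_d3_le (le_refl |lam|) hkX cY cZ)
    (mul_d3_le hln hkX hY hkZ) (d3_le hqX bY cZ)
  have r2 := abs_sum7 (mul_d3_le hn3 hkX hgY hZ) (mul_d3_le hn3 hX hgY hkZ)
    (mul_d3_le hnu hrX dY cZ) (mul_d3_le hn2 hkX dY hkZ) (mul_d3_le (le_refl |lam|) cX hkY cZ)
    (mul_d3_le hln hX hkY hkZ) (d3_le bX hqY cZ)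
  have r3 := abs_sum5 (mul_d3_le hn3 hkX hY hz) (mul_d3_le hn3 hX hkY hz) (d3_le cX cY dZ)
    (mul_d3_le hn2 hrX hY dZ) (mul_d3_le hn2 hX hrY dZ)
  have hB0 : 0 ≤ al ^ 2 * be := mul_nonneg (sq_nonneg _) hbe
  have key := key_scalar (lam := |lam|) hev hev1 hew heta heta1 hze hl
  have key2 := mul_le_mul_of_nonneg_left key hB0
  refine abs_fin (G3_exp X Y Z kX kY kZ gX gY z rX rY qX qY lam mu nu) r1 r2 r3
    (le_trans (le_of_eq ?_) key2) (by ring)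
  ring

end Pool.Agent.F5H.LIP
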