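import Pool.Agent.Helper48_F5.Est
import Pool.Agent.BTL.Slab
import Pool.Agent.Helper85_F5H.Alg

/-!
MP_f5cbfa_nt, squad F5H, block LIP: linear change of variables in the space of forms.
-/

set_option autoImplicit false

open MeasureTheory Filter Topology

namespace Pool.Agent.F5H.LIP

open Pool.Agent.BTL Pool.Agent.F5S Pool.Agent.F5H Pool.Agent.Helper48_F5

/-- the map `A ↦ (A.a, A.b, A.c)` -/
noncomputable def f3 (a b c : ℝ × ℝ × ℝ) : (ℝ × ℝ × ℝ) →ₗ[ℝ] (ℝ × ℝ × ℝ) where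
  toFun A := (dot A a, dot A b, dot A c)
  map_add' A B := by
    simp only [dot, Prod.fst_add, Prod.snd_add, Prod.mk_add_mk]
    refine Prod.ext ?_ (Prod.ext ?_ ?_) <;> simp only [] <;> ring
  map_smul' t A := by
    simp only [dot, Prod.smul_fst, Prod.smul_snd, smul_eq_mul, RingHom.id_apply, Prod.smul_mk]
    refine Prod.ext ?_ (Prod.ext ?_ ?_) <;> simp only [] <;> ring

theorem f3_det (a b c : ℝ × ℝ × ℝ) : LinearMap.det (f3 a b c) = d3 a b c := by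
  set Q : Matrix (Fin 3) (Fin 3) ℝ :=
    !![a.1, a.2.1, a.2.2; b.1, b.2.1, b.2.2; c.1, c.2.1, c.2.2] with hQ
  have hf : f3 a b c = (Slab.e3.symm : (Fin 3 → ℝ) →ₗ[ℝ] (ℝ × ℝ × ℝ)) ∘ₗ
      (Matrix.toLin' Q) ∘ₗ ((Slab.e3.symm).symm : (ℝ × ℝ × ℝ) →ₗ[ℝ] (Fin 3 → ℝ)) := by
    refine LinearMap.ext fun A => ?_
    change (dot A a, dot A b, dot A c) = ((Q.mulVec ![A.1, A.2.1, A.2.2]) 0,
      (Q.mulVec ![A.1, A.2.1, A.2.2]) 1, (Q.mulVec ![A.1, A.2.1, A.2.2]) 2)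
    simp only [hQ, Matrix.mulVec, dotProduct, Fin.sum_univ_three, dot]
    refine Prod.ext ?_ (Prod.ext ?_ ?_)
    · simp; ring
    · simp; ring
    · simp; ring
  rw [hf, LinearMap.det_conj, LinearMap.det_toLin', hQ, Matrix.det_fin_three]
  simp only [d3, dot, cr]
  simp
  ring

/-- linear change of variables -/
theorem cov {a b c : ℝ × ℝ × ℝ} (hn : d3 a b c ≠ 0) (F : ℝ × ℝ × ℝ → ℝ) :
    ∫ A, F (dot A a, dot A b, dot A c) = |d3 a b c|⁻¹ * ∫ y, F y := by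
  have hd : LinearMap.det (f3 a b c) ≠ 0 := by rw [f3_det]; exact hn
  have hu : IsUnit (LinearMap.det (f3 a b c)) := isUnit_iff_ne_zero.2 hd
  let E : (ℝ × ℝ × ℝ) ≃L[ℝ] (ℝ × ℝ × ℝ) :=
    (LinearEquiv.ofIsUnitDet (v := Module.finBasis ℝ (ℝ × ℝ × ℝ))
      (v' := Module.finBasis ℝ (ℝ × ℝ × ℝ)) (f := f3 a b c) (by
        rw [← LinearMap.det_toMatrix (Module.finBasis ℝ (ℝ × ℝ × ℝ))] at hu
        exact hu)).toContinuousLinearEquiv
  have hE : ∀ A, E A = (dot A a, dot A b, dot A c) := fun A => rfl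
  have hme : MeasurableEmbedding (f3 a b c) := E.toHomeomorph.measurableEmbedding
  have h1 := Measure.map_linearMap_addHaar_eq_smul_addHaar (volume : Measure (ℝ × ℝ × ℝ)) hd
  have h2 := hme.integral_map (μ := (volume : Measure (ℝ × ℝ × ℝ))) F
  rw [h1, integral_smul_measure, f3_det, ENNReal.toReal_ofReal (abs_nonneg _), abs_inv,
    smul_eq_mul] at h2
  exact h2.symm

end Pool.Agent.F5H.LIP
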