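import Pool.Agent.F5H.Defs

/-!
MP_f5cbfa_nt, squad F5H, block LIP: the objects. `h` is the difference, `m` the midpoint of a pair of
triples, so the pair is `m - h/2`, `m + h/2`.
-/

set_option autoImplicit false

open MeasureTheory Filter Topology

namespace Pool.Agent.F5H.LIP

open Pool.Agent.BTL Pool.Agent.F5S Pool.Agent.F5H

/-- Veronese vector of a real point: `dot A (vr x) = qf A x` -/
def vr (x : ℝ × ℝ) : ℝ × ℝ × ℝ := (x.1 ^ 2, 2 * x.1 * x.2, x.2 ^ 2)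

/-- its polarisation -/
def vb (x y : ℝ × ℝ) : ℝ × ℝ × ℝ := (x.1 * y.1, x.1 * y.2 + x.2 * y.1, x.2 * y.2)

/-- half of the sum of the Veronese vectors of `x - h/2` and `x + h/2` -/
noncomputable def ev (h x : ℝ × ℝ) : ℝ × ℝ × ℝ := vr x + (1 / 4 : ℝ) • vr h

noncomputable def Va (h m : R6) : ℝ × ℝ × ℝ := ev h.1 m.1 - ev h.2.1 m.2.1

noncomputable def Vb (h m : R6) : ℝ × ℝ × ℝ := ev h.2.1 m.2.1 - ev h.2.2 m.2.2

noncomputable def Vc (h m : R6) : ℝ × ℝ × ℝ := ev h.2.2 m.2.2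

def Ua (h m : R6) : ℝ × ℝ × ℝ := vb m.1 h.1 - vb m.2.1 h.2.1

def Ub (h m : R6) : ℝ × ℝ × ℝ := vb m.2.1 h.2.1 - vb m.2.2 h.2.2

def Uc (h m : R6) : ℝ × ℝ × ℝ := vb m.2.2 h.2.2

/-- determinant of three vectors -/
def d3 (u v w : ℝ × ℝ × ℝ) : ℝ := dot (cr u v) w

noncomputable def nd (h m : R6) : ℝ := d3 (Va h m) (Vb h m) (Vc h m)

noncomputable def Qa (h m : R6) : ℝ := d3 (Va h m) (Vb h m) (Ua h m)

noncomputable def Qb (h m : R6) : ℝ := d3 (Va h m) (Vb h m) (Ub h m)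

/-- the kernel of a pair as a function of the five differences `y = ((u, w), (u', w'), o)` -/
noncomputable def Ph (R e : ℝ) (p : ℝ × ℝ) (y : (ℝ × ℝ) × (ℝ × ℝ) × ℝ) : ℝ :=
  ∫ z : ℝ × ℝ, PR R (z.1 - z.2 - 2 * y.2.2) *
    ((tn ((y.1.1 + y.1.2 - y.2.1.1 - y.2.1.2 - (p.1 + p.2) - z.1) / e) *
      (tn ((y.1.2 - y.2.1.2 - p.2 - z.1) / e) * tn (z.1 / e))) *
    (tn ((y.1.1 + y.1.2 + y.2.1.1 + y.2.1.2 - (p.1 + p.2) - z.2) / e) *
      (tn ((y.1.2 + y.2.1.2 - p.2 - z.2) / e) * tn (z.2 / e))))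

/-- the five differences -/
noncomputable def dd5 (h m : R6) (A : ℝ × ℝ × ℝ) : (ℝ × ℝ) × (ℝ × ℝ) × ℝ :=
  ((dot A (Va h m), dot A (Vb h m)), (dot A (Ua h m), dot A (Ub h m)), dot A (Uc h m))

/-- the average over the forms -/
noncomputable def gA (M R e : ℝ) (p : ℝ × ℝ) (h m : R6) : ℝ :=
  ∫ A, chK M A * Ph R e p (dd5 h m A)

/-- scalar product of the plane -/
def ip (x y : ℝ × ℝ) : ℝ := x.1 * y.1 + x.2 * y.2

/-- derivative of the determinant -/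
def G3 (X Y Z x y z : ℝ × ℝ × ℝ) : ℝ := d3 x Y Z + d3 X y Z + d3 X Y z

/-- derivatives of `Va`, `Vb` -/
def dVa (m v : R6) : ℝ × ℝ × ℝ := (2 : ℝ) • (vb m.1 v.1 - vb m.2.1 v.2.1)

def dVb (m v : R6) : ℝ × ℝ × ℝ := (2 : ℝ) • (vb m.2.1 v.2.1 - vb m.2.2 v.2.2)

/-- derivatives of `Qa`, `Qb` in the direction `v` (`Ua`, `Ub` are linear in `m`) -/
noncomputable def DQa (h m v : R6) : ℝ :=
  G3 (Va h m) (Vb h m) (Ua h m) (dVa m v) (dVb m v) (Ua h v)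

noncomputable def DQb (h m v : R6) : ℝ :=
  G3 (Va h m) (Vb h m) (Ub h m) (dVa m v) (dVb m v) (Ub h v)

/-- `(V / T) ^ (1/2)` -/
noncomputable def kp (T V : ℝ) : ℝ := Real.sqrt (V / T)

/-- the eight linear forms -/
noncomputable def ff (T V : ℝ) (h m : R6) : Fin 8 → R6 → ℝ :=
  ![fun v => DQa h m v / T ^ 4,
    fun v => DQb h m v / T ^ 4,
    fun v => kp T V * dr m.1 v.1 / T,
    fun v => kp T V * dr m.2.1 v.2.1 / T,
    fun v => kp T V * dr m.2.2 v.2.2 / T,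
    fun v => kp T V * (ip m.1 v.1 * nr m.2.1 - ip m.2.1 v.2.1 * nr m.1) / T ^ 3,
    fun v => kp T V * (ip m.1 v.1 * nr m.2.2 - ip m.2.2 v.2.2 * nr m.1) / T ^ 3,
    fun v => kp T V ^ 3 * ip m.1 v.1 / T]

/-- the region: for some form of the cone the differences are small -/
def Rg (T P M : ℝ) (h : R6) : Set R6 :=
  {m | nle (3 * T) m ∧ dge (T ^ 2 / (2 * P)) m ∧ ∃ A ∈ KM (4 * M), |dot A (Va h m)| ≤ P ∧
    |dot A (Vb h m)| ≤ P ∧ |dot A (Ua h m)| ≤ P ∧ |dot A (Ub h m)| ≤ P ∧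
    |dot A (Uc h m)| ≤ P * Rx T}

end Pool.Agent.F5H.LIP
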