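import Pool.Agent.Helper85_F5H.L1
import Pool.Agent.Helper81_F5H.PRF

/-!
MP_f5cbfa_nt, squad F5H, block LIP: bounds, support and Lipschitz estimate of the function `Ph`.
-/

set_option autoImplicit false

open MeasureTheory Filter Topology

namespace Pool.Agent.F5H.LIP

open Pool.Agent.BTL Pool.Agent.F5S Pool.Agent.F5H
open Pool.Agent.F5S.H39 (tn_nonneg tn_le_one tn_cont tn_zero tn_lip)

/-- three tents -/
noncomputable def kq (e : ℝ) (p : ℝ × ℝ) (a b s : ℝ) : ℝ :=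
  tn ((a - (p.1 + p.2) - s) / e) * (tn ((b - p.2 - s) / e) * tn (s / e))

theorem kq_nonneg (e : ℝ) (p : ℝ × ℝ) (a b s : ℝ) : 0 ≤ kq e p a b s :=
  mul_nonneg (tn_nonneg _) (mul_nonneg (tn_nonneg _) (tn_nonneg _))

theorem kq_le (e : ℝ) (p : ℝ × ℝ) (a b s : ℝ) : kq e p a b s ≤ tn (s / e) := by
  unfold kq
  calc _ ≤ 1 * (1 * tn (s / e)) := by
        refine mul_le_mul (tn_le_one _) (mul_le_mul_of_nonneg_right (tn_le_one _) (tn_nonneg _))
          (mul_nonneg (tn_nonneg _) (tn_nonneg _)) zero_le_one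
    _ = _ := by ring

theorem tn_ne {e u : ℝ} (he : 0 < e) (h : tn (u / e) ≠ 0) : |u| < e := by
  by_contra hc
  apply h
  apply tn_zero
  rw [abs_div, abs_of_pos he, le_div_iff₀ he]
  linarith

theorem kq_supp {e : ℝ} (he : 0 < e) {p : ℝ × ℝ} {a b s : ℝ} (h : kq e p a b s ≠ 0) :
    |a - (p.1 + p.2) - s| < e ∧ |b - p.2 - s| < e ∧ |s| < e := by
  have h1 := left_ne_zero_of_mul h
  have h2 := right_ne_zero_of_mul h
  exact ⟨tn_ne he h1, tn_ne he (left_ne_zero_of_mul h2), tn_ne he (right_ne_zero_of_mul h2)⟩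

theorem kq_lip {e : ℝ} (he : 0 < e) (p : ℝ × ℝ) (a b a' b' s : ℝ) :
    |kq e p a b s - kq e p a' b' s| ≤ (|a - a'| + |b - b'|) / e * tn (s / e) := by
  have h1 : |tn ((a - (p.1 + p.2) - s) / e) - tn ((a' - (p.1 + p.2) - s) / e)| ≤ |a - a'| / e := by
    refine (tn_lip _ _).trans (le_of_eq ?_)
    rw [← sub_div, abs_div, abs_of_pos he]
    congr 2
    ring
  have h2 : |tn ((b - p.2 - s) / e) - tn ((b' - p.2 - s) / e)| ≤ |b - b'| / e := by
    refine (tn_lip _ _).trans (le_of_eq ?_)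
    rw [← sub_div, abs_div, abs_of_pos he]
    congr 2
    ring
  unfold kq
  set x1 := tn ((a - (p.1 + p.2) - s) / e)
  set x2 := tn ((a' - (p.1 + p.2) - s) / e)
  set y1 := tn ((b - p.2 - s) / e) with hy1
  set y2 := tn ((b' - p.2 - s) / e)
  set z := tn (s / e) with hz
  have hx2 : 0 ≤ x2 ∧ x2 ≤ 1 := ⟨tn_nonneg _, tn_le_one _⟩
  have hy : 0 ≤ y1 ∧ y1 ≤ 1 := ⟨tn_nonneg _, tn_le_one _⟩
  have hz0 : 0 ≤ z := tn_nonneg _
  have e1 : x1 * (y1 * z) - x2 * (y2 * z) = ((x1 - x2) * y1 + x2 * (y1 - y2)) * z := by ring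
  rw [e1, abs_mul, abs_of_nonneg hz0]
  refine mul_le_mul_of_nonneg_right ?_ hz0
  calc |(x1 - x2) * y1 + x2 * (y1 - y2)| ≤ |x1 - x2| * y1 + x2 * |y1 - y2| := by
        refine (abs_add_le _ _).trans ?_
        rw [abs_mul, abs_mul, abs_of_nonneg hy.1, abs_of_nonneg hx2.1]
    _ ≤ |x1 - x2| * 1 + 1 * |y1 - y2| := add_le_add
        (mul_le_mul_of_nonneg_left hy.2 (abs_nonneg _))
        (mul_le_mul_of_nonneg_right hx2.2 (abs_nonneg _))
    _ ≤ |a - a'| / e + |b - b'| / e := by linarith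
    _ = _ := by ring

theorem kq_cont (e : ℝ) (p : ℝ × ℝ) (a b : ℝ) : Continuous (fun s => kq e p a b s) := by
  unfold kq
  exact (tn_cont.comp (by fun_prop)).mul ((tn_cont.comp (by fun_prop)).mul
    (tn_cont.comp (by fun_prop)))

/-- first argument of the two factors -/
def ya (σ : ℝ) (y : (ℝ × ℝ) × (ℝ × ℝ) × ℝ) : ℝ := y.1.1 + y.1.2 + σ * (y.2.1.1 + y.2.1.2)

/-- second argument of the two factors -/
def yb (σ : ℝ) (y : (ℝ × ℝ) × (ℝ × ℝ) × ℝ) : ℝ := y.1.2 + σ * y.2.1.2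

theorem Ph_eq (R e : ℝ) (p : ℝ × ℝ) (y : (ℝ × ℝ) × (ℝ × ℝ) × ℝ) : Ph R e p y =
    ∫ z : ℝ × ℝ, PR R (z.1 - z.2 - 2 * y.2.2) * (kq e p (ya (-1) y) (yb (-1) y) z.1 *
      kq e p (ya 1 y) (yb 1 y) z.2) := by
  unfold Ph
  refine integral_congr_ae (Filter.Eventually.of_forall fun z => ?_)
  have a1 : ya (-1) y = y.1.1 + y.1.2 - y.2.1.1 - y.2.1.2 := by unfold ya; ring
  have a2 : ya 1 y = y.1.1 + y.1.2 + y.2.1.1 + y.2.1.2 := by unfold ya; ring
  have b1 : yb (-1) y = y.1.2 - y.2.1.2 := by unfold yb; ring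
  have b2 : yb 1 y = y.1.2 + y.2.1.2 := by unfold yb; ring
  simp only [kq, a1, a2, b1, b2]

theorem PR_cont {R : ℝ} (hR : 0 < R) : Continuous (PR R) := by
  have h := (Pool.Agent.F5H.H81.prf R hR).2.2.1
  have hl : LipschitzWith (Real.toNNReal (1 / R)) (PR R) := by
    apply LipschitzWith.of_dist_le_mul
    intro u v
    rw [Real.dist_eq, Real.dist_eq, Real.coe_toNNReal _ (by positivity)]
    refine (h u v).trans (le_of_eq ?_)
    ring
  exact hl.continuous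

theorem int_tt {e : ℝ} (he : 0 < e) :
    Integrable (fun z : ℝ × ℝ => tn (z.1 / e) * tn (z.2 / e)) ∧
    ∫ z : ℝ × ℝ, tn (z.1 / e) * tn (z.2 / e) = e ^ 2 := by
  obtain ⟨i1, v1⟩ := Pool.Agent.F5S.H39.tnf.2.2.2.2.2.2.1 e he
  refine ⟨i1.mul_prod i1, ?_⟩
  have h := integral_prod_mul (μ := (volume : Measure ℝ)) (ν := (volume : Measure ℝ))
    (fun s : ℝ => tn (s / e)) (fun s : ℝ => tn (s / e))
  refine Eq.trans h ?_
  rw [v1]
  ring

theorem Ph_int {R e : ℝ} (hR : 0 < R) (he : 0 < e) (p : ℝ × ℝ) (o a b a' b' : ℝ) :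
    Integrable (fun z : ℝ × ℝ => PR R (z.1 - z.2 - 2 * o) * (kq e p a b z.1 *
      kq e p a' b' z.2)) := by
  refine (int_tt he).1.mono' ?_ (Filter.Eventually.of_forall fun z => ?_)
  · refine Continuous.aestronglyMeasurable ?_
    exact ((PR_cont hR).comp (by fun_prop)).mul (((kq_cont e p a b).comp continuous_fst).mul
      ((kq_cont e p a' b').comp continuous_snd))
  · have h1 := (Pool.Agent.F5H.H81.prf R hR).1 (z.1 - z.2 - 2 * o)
    rw [Real.norm_eq_abs, abs_of_nonneg (mul_nonneg h1.1 (mul_nonneg (kq_nonneg _ _ _ _ _)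
      (kq_nonneg _ _ _ _ _)))]
    calc _ ≤ 1 * (tn (z.1 / e) * tn (z.2 / e)) := by
          refine mul_le_mul h1.2 (mul_le_mul (kq_le _ _ _ _ _) (kq_le _ _ _ _ _)
            (kq_nonneg _ _ _ _ _) (tn_nonneg _)) (mul_nonneg (kq_nonneg _ _ _ _ _)
            (kq_nonneg _ _ _ _ _)) zero_le_one
      _ = _ := by ring

theorem Ph_nonneg {R : ℝ} (hR : 0 < R) (e : ℝ) (p : ℝ × ℝ)
    (y : (ℝ × ℝ) × (ℝ × ℝ) × ℝ) : 0 ≤ Ph R e p y := by
  rw [Ph_eq]
  exact integral_nonneg fun z => mul_nonneg ((Pool.Agent.F5H.H81.prf R hR).1 _).1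
    (mul_nonneg (kq_nonneg _ _ _ _ _) (kq_nonneg _ _ _ _ _))

theorem Ph_le {R e : ℝ} (hR : 0 < R) (he : 0 < e) (p : ℝ × ℝ)
    (y : (ℝ × ℝ) × (ℝ × ℝ) × ℝ) : Ph R e p y ≤ e ^ 2 := by
  rw [Ph_eq, ← (int_tt he).2]
  refine integral_mono (Ph_int hR he p _ _ _ _ _) (int_tt he).1 fun z => ?_
  have h1 := (Pool.Agent.F5H.H81.prf R hR).1 (z.1 - z.2 - 2 * y.2.2)
  calc _ ≤ 1 * (tn (z.1 / e) * tn (z.2 / e)) := by
        refine mul_le_mul h1.2 (mul_le_mul (kq_le _ _ _ _ _) (kq_le _ _ _ _ _)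
          (kq_nonneg _ _ _ _ _) (tn_nonneg _)) (mul_nonneg (kq_nonneg _ _ _ _ _)
          (kq_nonneg _ _ _ _ _)) zero_le_one
    _ = _ := by ring

/-- the bound for the support in the first four variables -/
noncomputable def B0 (e : ℝ) (p : ℝ × ℝ) : ℝ := 4 * e + |p.1| + 2 * |p.2|

theorem Ph_supp {R e : ℝ} (hR : 0 < R) (he : 0 < e) {p : ℝ × ℝ}
    {y : (ℝ × ℝ) × (ℝ × ℝ) × ℝ} (h : Ph R e p y ≠ 0) :
    |y.1.1| ≤ B0 e p ∧ |y.1.2| ≤ B0 e p ∧ |y.2.1.1| ≤ B0 e p ∧ |y.2.1.2| ≤ B0 e p ∧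
      |y.2.2| ≤ R + e := by
  rw [Ph_eq] at h
  have h1 : ∃ z : ℝ × ℝ, PR R (z.1 - z.2 - 2 * y.2.2) * (kq e p (ya (-1) y) (yb (-1) y) z.1 *
      kq e p (ya 1 y) (yb 1 y) z.2) ≠ 0 := by
    by_contra hc
    push Not at hc
    apply h
    rw [show (fun z : ℝ × ℝ => PR R (z.1 - z.2 - 2 * y.2.2) *
      (kq e p (ya (-1) y) (yb (-1) y) z.1 * kq e p (ya 1 y) (yb 1 y) z.2)) = fun _ => 0 from
      funext hc, integral_zero]
  obtain ⟨z, hz⟩ := h1
  have h2 := (Pool.Agent.F5H.H81.prf R hR).2.1 _ (left_ne_zero_of_mul hz)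
  have h3 := kq_supp he (left_ne_zero_of_mul (right_ne_zero_of_mul hz))
  have h4 := kq_supp he (right_ne_zero_of_mul (right_ne_zero_of_mul hz))
  unfold ya yb at h3 h4
  unfold B0
  obtain ⟨h3a, h3b, h3c⟩ := h3
  obtain ⟨h4a, h4b, h4c⟩ := h4
  rw [abs_lt] at h2 h3a h3b h3c h4a h4b h4c
  have p1 := neg_abs_le p.1
  have p1' := le_abs_self p.1
  have p2 := neg_abs_le p.2
  have p2' := le_abs_self p.2
  refine ⟨?_, ?_, ?_, ?_, ?_⟩ <;> rw [abs_le] <;> constructor <;> linarith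

theorem Ph_lip {R e : ℝ} (hR : 0 < R) (he : 0 < e) (p : ℝ × ℝ)
    (y y' : (ℝ × ℝ) × (ℝ × ℝ) × ℝ) : |Ph R e p y - Ph R e p y'| ≤
      4 * e * (|y.1.1 - y'.1.1| + |y.1.2 - y'.1.2| + |y.2.1.1 - y'.2.1.1| +
        |y.2.1.2 - y'.2.1.2|) + 2 * e ^ 2 * (|y.2.2 - y'.2.2| / R) := by
  set D := |y.1.1 - y'.1.1| + |y.1.2 - y'.1.2| + |y.2.1.1 - y'.2.1.1| + |y.2.1.2 - y'.2.1.2|
    with hD
  have q1 := abs_nonneg (y.1.1 - y'.1.1)
  have q2 := abs_nonneg (y.1.2 - y'.1.2)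
  have q3 := abs_nonneg (y.2.1.1 - y'.2.1.1)
  have q4 := abs_nonneg (y.2.1.2 - y'.2.1.2)
  have ha : ∀ σ : ℝ, |σ| = 1 → |ya σ y - ya σ y'| ≤ D ∧ |yb σ y - yb σ y'| ≤ D := by
    intro σ hσ
    constructor
    · have e1 : ya σ y - ya σ y' = (y.1.1 - y'.1.1) + (y.1.2 - y'.1.2) +
          (σ * (y.2.1.1 - y'.2.1.1) + σ * (y.2.1.2 - y'.2.1.2)) := by
        unfold ya; ring
      rw [e1]
      refine (abs_add_le _ _).trans ?_
      have := abs_add_le (y.1.1 - y'.1.1) (y.1.2 - y'.1.2)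
      have h2 := abs_add_le (σ * (y.2.1.1 - y'.2.1.1)) (σ * (y.2.1.2 - y'.2.1.2))
      rw [abs_mul, abs_mul, hσ, one_mul, one_mul] at h2
      rw [hD]
      linarith
    · have e1 : yb σ y - yb σ y' = (y.1.2 - y'.1.2) + σ * (y.2.1.2 - y'.2.1.2) := by
        unfold yb; ring
      rw [e1]
      refine (abs_add_le _ _).trans ?_
      rw [abs_mul, hσ, one_mul, hD]
      linarith
  have hm := ha (-1) (by simp)
  have hp := ha 1 (by simp)
  rw [Ph_eq, Ph_eq, ← integral_sub (Ph_int hR he p _ _ _ _ _) (Ph_int hR he p _ _ _ _ _)]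
  have hb : ∀ z : ℝ × ℝ, |PR R (z.1 - z.2 - 2 * y.2.2) * (kq e p (ya (-1) y) (yb (-1) y) z.1 *
      kq e p (ya 1 y) (yb 1 y) z.2) - PR R (z.1 - z.2 - 2 * y'.2.2) *
      (kq e p (ya (-1) y') (yb (-1) y') z.1 * kq e p (ya 1 y') (yb 1 y') z.2)| ≤
      (4 * D / e + 2 * (|y.2.2 - y'.2.2| / R)) * (tn (z.1 / e) * tn (z.2 / e)) := by
    intro z
    have k1 := kq_lip he p (ya (-1) y) (yb (-1) y) (ya (-1) y') (yb (-1) y') z.1
    have k2 := kq_lip he p (ya 1 y) (yb 1 y) (ya 1 y') (yb 1 y') z.2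
    have r1 := (Pool.Agent.F5H.H81.prf R hR).2.2.1 (z.1 - z.2 - 2 * y.2.2)
      (z.1 - z.2 - 2 * y'.2.2)
    have r2 := (Pool.Agent.F5H.H81.prf R hR).1 (z.1 - z.2 - 2 * y'.2.2)
    have e3 : |z.1 - z.2 - 2 * y.2.2 - (z.1 - z.2 - 2 * y'.2.2)| / R =
        2 * (|y.2.2 - y'.2.2| / R) := by
      rw [show z.1 - z.2 - 2 * y.2.2 - (z.1 - z.2 - 2 * y'.2.2) = -(2 * (y.2.2 - y'.2.2)) by ring,
        abs_neg, abs_mul, abs_of_pos (by norm_num : (0 : ℝ) < 2)]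
      ring
    rw [e3] at r1
    set X := PR R (z.1 - z.2 - 2 * y.2.2)
    set X' := PR R (z.1 - z.2 - 2 * y'.2.2)
    have u1 := kq_nonneg e p (ya (-1) y) (yb (-1) y) z.1
    have u1' := kq_le e p (ya (-1) y) (yb (-1) y) z.1
    have v1 := kq_nonneg e p (ya 1 y) (yb 1 y) z.2
    have v1' := kq_le e p (ya 1 y) (yb 1 y) z.2
    have u2 := kq_nonneg e p (ya (-1) y') (yb (-1) y') z.1
    have u2' := kq_le e p (ya (-1) y') (yb (-1) y') z.1
    set a := kq e p (ya (-1) y) (yb (-1) y) z.1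
    set b := kq e p (ya 1 y) (yb 1 y) z.2
    set a' := kq e p (ya (-1) y') (yb (-1) y') z.1
    set b' := kq e p (ya 1 y') (yb 1 y') z.2
    set t1 := tn (z.1 / e)
    set t2 := tn (z.2 / e)
    have ht1 : 0 ≤ t1 := tn_nonneg _
    have ht2 : 0 ≤ t2 := tn_nonneg _
    have c1 : (|ya (-1) y - ya (-1) y'| + |yb (-1) y - yb (-1) y'|) / e * t1 ≤ 2 * D / e * t1 := by
      refine mul_le_mul_of_nonneg_right ?_ ht1
      refine div_le_div_of_nonneg_right ?_ he.le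
      linarith [hm.1, hm.2]
    have c2 : (|ya 1 y - ya 1 y'| + |yb 1 y - yb 1 y'|) / e * t2 ≤ 2 * D / e * t2 := by
      refine mul_le_mul_of_nonneg_right ?_ ht2
      refine div_le_div_of_nonneg_right ?_ he.le
      linarith [hp.1, hp.2]
    have d1 := k1.trans c1
    have d2 := k2.trans c2
    have hDe : 0 ≤ 2 * D / e := by positivity
    have e4 : X * (a * b) - X' * (a' * b') =
        (X - X') * (a * b) + X' * ((a - a') * b + a' * (b - b')) := by ring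
    rw [e4]
    have s1 : |(X - X') * (a * b)| ≤ 2 * (|y.2.2 - y'.2.2| / R) * (t1 * t2) := by
      rw [abs_mul, abs_of_nonneg (mul_nonneg u1 v1)]
      exact mul_le_mul r1 (mul_le_mul u1' v1' v1 ht1) (mul_nonneg u1 v1)
        (by positivity)
    have s2 : |X' * ((a - a') * b + a' * (b - b'))| ≤ 4 * D / e * (t1 * t2) := by
      rw [abs_mul, abs_of_nonneg r2.1]
      have s3 : |(a - a') * b + a' * (b - b')| ≤ 4 * D / e * (t1 * t2) := by
        refine (abs_add_le _ _).trans ?_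
        rw [abs_mul, abs_mul, abs_of_nonneg v1, abs_of_nonneg u2]
        have w1 : |a - a'| * b ≤ 2 * D / e * t1 * t2 :=
          mul_le_mul d1 v1' v1 (mul_nonneg hDe ht1)
        have w2 : a' * |b - b'| ≤ t1 * (2 * D / e * t2) :=
          mul_le_mul u2' d2 (abs_nonneg _) ht1
        calc |a - a'| * b + a' * |b - b'| ≤ 2 * D / e * t1 * t2 + t1 * (2 * D / e * t2) :=
              add_le_add w1 w2
          _ = _ := by ring
      calc X' * |(a - a') * b + a' * (b - b')| ≤ 1 * (4 * D / e * (t1 * t2)) :=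
            mul_le_mul r2.2 s3 (abs_nonneg _) zero_le_one
        _ = _ := one_mul _
    refine (abs_add_le _ _).trans ?_
    calc _ ≤ 2 * (|y.2.2 - y'.2.2| / R) * (t1 * t2) + 4 * D / e * (t1 * t2) := add_le_add s1 s2
      _ = _ := by ring
  have h5 := norm_integral_le_of_norm_le ((int_tt he).1.const_mul
    (4 * D / e + 2 * (|y.2.2 - y'.2.2| / R))) (Filter.Eventually.of_forall fun z => by
      rw [Real.norm_eq_abs]; exact hb z)
  rw [Real.norm_eq_abs, integral_const_mul, (int_tt he).2] at h5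
  refine h5.trans (le_of_eq ?_)
  field_simp

theorem Ph_cont {R e : ℝ} (hR : 0 < R) (he : 0 < e) (p : ℝ × ℝ) : Continuous (Ph R e p) := by
  have hl : LipschitzWith (Real.toNNReal (16 * e + 2 * e ^ 2 / R)) (Ph R e p) := by
    apply LipschitzWith.of_dist_le_mul
    intro y y'
    rw [Real.dist_eq, dist_eq_norm, Real.coe_toNNReal _ (by positivity)]
    refine (Ph_lip hR he p y y').trans ?_
    have n1 : |y.1.1 - y'.1.1| ≤ ‖y - y'‖ :=
      (norm_fst_le (y - y').1).trans (norm_fst_le _)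
    have n2 : |y.1.2 - y'.1.2| ≤ ‖y - y'‖ :=
      (norm_snd_le (y - y').1).trans (norm_fst_le _)
    have n3 : |y.2.1.1 - y'.2.1.1| ≤ ‖y - y'‖ :=
      (norm_fst_le (y - y').2.1).trans ((norm_fst_le _).trans (norm_snd_le _))
    have n4 : |y.2.1.2 - y'.2.1.2| ≤ ‖y - y'‖ :=
      (norm_snd_le (y - y').2.1).trans ((norm_fst_le _).trans (norm_snd_le _))
    have n5 : |y.2.2 - y'.2.2| ≤ ‖y - y'‖ :=
      (norm_snd_le (y - y').2).trans (norm_snd_le _)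
    have n6 : |y.2.2 - y'.2.2| / R ≤ ‖y - y'‖ / R := div_le_div_of_nonneg_right n5 hR.le
    calc _ ≤ 4 * e * (‖y - y'‖ + ‖y - y'‖ + ‖y - y'‖ + ‖y - y'‖) +
          2 * e ^ 2 * (‖y - y'‖ / R) := by
          refine add_le_add (mul_le_mul_of_nonneg_left (by linarith) (by positivity))
            (mul_le_mul_of_nonneg_left n6 (by positivity))
      _ = _ := by ring
  exact hl.continuous

end Pool.Agent.F5H.LIP
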