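import Pool.Agent.Helper41_F5H.CLF
import Pool.Agent.Helper41_F5H.CHK
import Pool.Agent.Helper56_F5H.FAF

/-!
MP_f5cbfa_nt, squad F5H, block LIP: the weight of a pair moves slowly.
-/

set_option autoImplicit false

open MeasureTheory Filter Topology

namespace Pool.Agent.F5H.LIP

open Pool.Agent.BTL Pool.Agent.F5S Pool.Agent.F5H

theorem haar4 : (volume : Measure ((ℝ × ℝ) × (ℝ × ℝ))).IsAddHaarMeasure := by
  have h : (volume : Measure (ℝ × ℝ)).IsAddHaarMeasure := inferInstance
  exact @Measure.prod.instIsAddHaarMeasure (ℝ × ℝ) _ _ _ (ℝ × ℝ) _ _ _ volume volume h h _ _ _ _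

theorem haar6 : (volume : Measure R6).IsAddHaarMeasure := by
  have h : (volume : Measure (ℝ × ℝ)).IsAddHaarMeasure := inferInstance
  have h4 := haar4
  exact @Measure.prod.instIsAddHaarMeasure (ℝ × ℝ) _ _ _ ((ℝ × ℝ) × (ℝ × ℝ)) _ _ _ volume volume
    h h4 _ _ _ _

/-- kernel of the weight -/
noncomputable def Kc (L : ℝ) (x y c : R6) : ℝ := (L ^ 6)⁻¹ * (cl6 L c x * cl6 L c y)

theorem Kc_facts {L : ℝ} (hL : 0 < L) (x y : R6) :
    Continuous (Kc L x y) ∧ (∀ c, 0 ≤ Kc L x y c ∧ Kc L x y c ≤ (L ^ 6)⁻¹) ∧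
    (∀ c, c ∉ Metric.closedBall x L → Kc L x y c = 0) := by
  obtain ⟨c01, cc, csup, -⟩ := Pool.Agent.F5H.H41.clf L hL
  refine ⟨?_, ?_, ?_⟩
  · unfold Kc
    refine continuous_const.mul (Continuous.mul ?_ ?_)
    · exact cc.comp (continuous_id.prodMk continuous_const)
    · exact cc.comp (continuous_id.prodMk continuous_const)
  · intro c
    have h0 : 0 ≤ (L ^ 6)⁻¹ := by positivity
    unfold Kc
    refine ⟨mul_nonneg h0 (mul_nonneg (c01 c x).1 (c01 c y).1), ?_⟩
    exact mul_le_of_le_one_right h0 (mul_le_one₀ (c01 c x).2 (c01 c y).1 (c01 c y).2)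
  · intro c hc
    have hz : cl6 L c x = 0 := by
      by_contra hne
      apply hc
      rw [Metric.mem_closedBall, dist_comm, dist_eq_norm]
      exact csup c x hne
    unfold Kc
    rw [hz, zero_mul, mul_zero]

theorem W_int {L : ℝ} (hL : 0 < L) {W : R6 → ℝ} (hW : Measurable W)
    (h01 : ∀ c, |W c| ≤ 1) (x y : R6) : Integrable (fun c => W c * Kc L x y c) := by
  obtain ⟨kc, kb, ks⟩ := Kc_facts hL x y
  have h1 : IntegrableOn (fun c => W c * Kc L x y c) (Metric.closedBall x L) := by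
    refine Measure.integrableOn_of_bounded (M := (L ^ 6)⁻¹) ?_ ?_ ?_
    · rw [Pool.Agent.F5H.H56.vol6 _ _ hL.le]
      exact ENNReal.ofReal_ne_top
    · exact (hW.mul kc.measurable).aestronglyMeasurable
    · refine Filter.Eventually.of_forall fun c => ?_
      rw [Real.norm_eq_abs, abs_mul, abs_of_nonneg (kb c).1]
      calc |W c| * Kc L x y c ≤ 1 * (L ^ 6)⁻¹ :=
            mul_le_mul (h01 c) (kb c).2 (kb c).1 zero_le_one
        _ = _ := one_mul _
  refine (integrableOn_iff_integrable_of_support_subset ?_).1 h1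
  intro c hc
  by_contra hn
  exact hc (by simp only [ks c hn, mul_zero])

theorem WC_shift (L : ℝ) (W : R6 → ℝ) (x y v : R6) :
    WC L W (x + v) (y + v) = ∫ c, W (c + v) * Kc L x y c := by
  have hh := haar6
  have h := integral_add_right_eq_self (μ := (volume : Measure R6))
    (fun c => W c * ((L ^ 6)⁻¹ * (cl6 L c (x + v) * cl6 L c (y + v)))) v
  unfold WC
  rw [← h]
  refine integral_congr_ae (Filter.Eventually.of_forall fun c => ?_)
  have e : ∀ z : R6, cl6 L (c + v) (z + v) = cl6 L c z := by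
    intro z
    unfold cl6
    simp only [Prod.fst_add, Prod.snd_add, add_sub_add_right_eq_sub]
  simp only [e]
  rfl

/-- the weight of a translated pair -/
theorem WC_lip {L l : ℝ} (hL : 0 < L) {W : R6 → ℝ} (hW : Measurable W)
    (h01 : ∀ c, 0 ≤ W c ∧ W c ≤ 1) (hl : ∀ c c', |W c - W c'| ≤ l * ‖c - c'‖) (x y v : R6) :
    |WC L W (x + v) (y + v) - WC L W x y| ≤ 64 * (l * ‖v‖) := by
  obtain ⟨kc, kb, ks⟩ := Kc_facts hL x y
  have a1 : ∀ c, |W c| ≤ 1 := fun c => by
    rw [abs_of_nonneg (h01 c).1]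
    exact (h01 c).2
  have i1 := W_int hL hW a1 x y
  have i2 := W_int hL (W := fun c => W (c + v)) (hW.comp (measurable_id.add_const v))
    (fun c => a1 _) x y
  have e1 : WC L W x y = ∫ c, W c * Kc L x y c := rfl
  rw [WC_shift, e1, ← integral_sub i2 i1]
  have e2 : ∫ c, (W (c + v) * Kc L x y c - W c * Kc L x y c) =
      ∫ c in Metric.closedBall x L, (W (c + v) * Kc L x y c - W c * Kc L x y c) := by
    rw [setIntegral_eq_integral_of_forall_compl_eq_zero]
    intro c hc
    rw [ks c hc, mul_zero, mul_zero, sub_zero]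
  rw [e2]
  have hv : volume (Metric.closedBall x L) < ⊤ := by
    rw [Pool.Agent.F5H.H56.vol6 _ _ hL.le]
    exact ENNReal.ofReal_lt_top
  have h := norm_setIntegral_le_of_norm_le_const (μ := (volume : Measure R6))
    (f := fun c => W (c + v) * Kc L x y c - W c * Kc L x y c) (C := l * ‖v‖ * (L ^ 6)⁻¹) hv
    (fun c _ => by
      rw [← sub_mul, norm_mul, Real.norm_eq_abs, Real.norm_eq_abs, abs_of_nonneg (kb c).1]
      have h2 := hl (c + v) c
      rw [add_sub_cancel_left] at h2
      exact mul_le_mul h2 (kb c).2 (kb c).1 ((abs_nonneg _).trans h2))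
  rw [Real.norm_eq_abs] at h
  refine h.trans (le_of_eq ?_)
  have hr : (volume : Measure R6).real (Metric.closedBall x L) = (2 * L) ^ 6 := by
    rw [Measure.real, Pool.Agent.F5H.H56.vol6 _ _ hL.le, ENNReal.toReal_ofReal (by positivity)]
  rw [hr]
  field_simp
  ring

end Pool.Agent.F5H.LIP
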