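import Pool.Agent.F5H.DefsL
import Pool.Agent.Helper85_F5H.Cov
import Pool.Agent.Helper85_F5H.Phf
import Pool.Agent.Helper85_F5H.WCf

/-!
MP_f5cbfa_nt, squad F5H, block LIP: the average over the forms, bound and Lipschitz bound.
-/

set_option autoImplicit false

open MeasureTheory Filter Topology

namespace Pool.Agent.F5H.LIP

open Pool.Agent.BTL Pool.Agent.F5S Pool.Agent.F5H Pool.Agent.Helper48_F5

theorem fx_eq (M T e : ℝ) (p : ℝ × ℝ) (W : R6 → ℝ) (h : Z6) (x : R6) :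
    fx M T e p W h x = WC (Lx T) W x (x + r3 h) * gA M (Rx T) e p (r3 h) (mid (r3 h) x) := by
  unfold fx Fx FF gA
  rw [← integral_const_mul]
  refine integral_congr_ae (Filter.Eventually.of_forall fun A => ?_)
  simp only [FA]
  have h1 := RV_eq (Rx T) e p A (r3 h) (mid (r3 h) x)
  have e1 : mid (r3 h) x - (1 / 2 : ℝ) • r3 h = x := by
    unfold mid
    rw [add_sub_cancel_right]
  have e2 : mid (r3 h) x + (1 / 2 : ℝ) • r3 h = x + r3 h := by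
    unfold mid
    rw [add_assoc, ← add_smul]
    norm_num
  rw [e1, e2] at h1
  rw [h1]
  ring

theorem dot_vb (A : ℝ × ℝ × ℝ) (x y : ℝ × ℝ) : dot A (vb x y) = Helper48_F5.bl A x y := by
  simp only [dot, vb, Helper48_F5.bl]

theorem dot_ev (A : ℝ × ℝ × ℝ) (m h : R6) : dot A (ev h.1 m.1) = AW A (t3 m) (t3 h) 0 ∧
    dot A (ev h.2.1 m.2.1) = AW A (t3 m) (t3 h) 1 ∧
    dot A (ev h.2.2 m.2.2) = AW A (t3 m) (t3 h) 2 := by
  refine ⟨?_, ?_, ?_⟩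
  · rw [AW_eq_dot]
    rfl
  · rw [AW_eq_dot]
    rfl
  · rw [AW_eq_dot]
    rfl

/-- the five differences -/
theorem dd5_eq (h m : R6) (A : ℝ × ℝ × ℝ) : dd5 h m A =
    ((AW A (t3 m) (t3 h) 0 - AW A (t3 m) (t3 h) 1, AW A (t3 m) (t3 h) 1 - AW A (t3 m) (t3 h) 2),
    (Helper48_F5.bl A (t3 m 0) (t3 h 0) - Helper48_F5.bl A (t3 m 1) (t3 h 1),
      Helper48_F5.bl A (t3 m 1) (t3 h 1) - Helper48_F5.bl A (t3 m 2) (t3 h 2)),
    Helper48_F5.bl A (t3 m 2) (t3 h 2)) := by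
  obtain ⟨h0, h1, h2⟩ := dot_ev A m h
  simp only [dd5, Va, Vb, Ua, Ub, Uc, dot_sub, h0, h1, h2, dot_vb]
  rfl

theorem nn_eq_d3 (m h : T3) : Helper48_F5.nn m h = d3 (wv m h 0) (wv m h 1) (wv m h 2) := by
  simp only [Helper48_F5.nn, d3, dot, cr]
  ring

/-- the form with given values -/
noncomputable def Sy (h m : R6) (y : ℝ × ℝ × ℝ) : ℝ × ℝ × ℝ :=
  (Helper48_F5.nn (t3 m) (t3 h))⁻¹ • (y.1 • cr (wv (t3 m) (t3 h) 1) (wv (t3 m) (t3 h) 2) +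
    (y.2.1 • cr (wv (t3 m) (t3 h) 2) (wv (t3 m) (t3 h) 0) +
    y.2.2 • cr (wv (t3 m) (t3 h) 0) (wv (t3 m) (t3 h) 1)))

theorem Sy_eq (h m : R6) (y : ℝ × ℝ × ℝ) :
    Sy h m y = sol (t3 m) (t3 h) ![y.1, y.2.1, y.2.2] := rfl

theorem Sy_cont (h m : R6) : Continuous (Sy h m) := by
  unfold Sy
  fun_prop

theorem dd5_cont (h m : R6) : Continuous (dd5 h m) := by
  unfold dd5 dot
  fun_prop

theorem chK_cont {M : ℝ} (hM : 1 ≤ M) : Continuous (chK M) := by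
  have h := (Pool.Agent.F5H.H41.chk M hM).2.2.2
  have hl : LipschitzWith (Real.toNNReal (12 * M)) (chK M) := by
    apply LipschitzWith.of_dist_le_mul
    intro u v
    rw [Real.dist_eq, dist_eq_norm, Real.coe_toNNReal _ (by positivity)]
    exact h u v
  exact hl.continuous

/-- the integrand in the values -/
noncomputable def Phi (M R e : ℝ) (p : ℝ × ℝ) (h m : R6) (y : ℝ × ℝ × ℝ) : ℝ :=
  chK M (Sy h m y) * Ph R e p (dd5 h m (Sy h m y))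

theorem Phi_cont {M R e : ℝ} (hM : 1 ≤ M) (hR : 0 < R) (he : 0 < e) (p : ℝ × ℝ) (h m : R6) :
    Continuous (Phi M R e p h m) :=
  ((chK_cont hM).comp (Sy_cont h m)).mul
    ((Ph_cont hR he p).comp ((dd5_cont h m).comp (Sy_cont h m)))

theorem gA_eq {M R e K T V : ℝ} {p : ℝ × ℝ} {h m : R6} (ho : Ok K T V (t3 m) (t3 h)) :
    gA M R e p h m = |Helper48_F5.nn (t3 m) (t3 h)|⁻¹ * ∫ y, Phi M R e p h m y := by
  have hn : d3 (wv (t3 m) (t3 h) 0) (wv (t3 m) (t3 h) 1) (wv (t3 m) (t3 h) 2) ≠ 0 := by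
    rw [← nn_eq_d3]
    exact nn_ne_zero ho
  have h1 := cov hn (Phi M R e p h m)
  rw [← nn_eq_d3] at h1
  rw [← h1]
  unfold gA
  refine integral_congr_ae (Filter.Eventually.of_forall fun A => ?_)
  have e1 : Sy h m (dot A (wv (t3 m) (t3 h) 0), dot A (wv (t3 m) (t3 h) 1),
      dot A (wv (t3 m) (t3 h) 2)) = A := by
    refine eq_of_AW ho fun l => ?_
    rw [Sy_eq, AW_sol ho, AW_eq_dot]
    fin_cases l <;> rfl
  simp only [Phi, e1]

/-- the box of the values -/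
def Bxx (B L : ℝ) : Set (ℝ × ℝ × ℝ) := {y | |y.1 - y.2.1| ≤ B ∧ |y.2.1 - y.2.2| ≤ B ∧ |y.2.2| ≤ L}

theorem Bxx_vol {B L : ℝ} (hB : 0 ≤ B) (hL : 0 ≤ L) :
    volume (Bxx B L) = ENNReal.ofReal (8 * B ^ 2 * L) := by
  have h := Slab.vol_box (1, -1, 0) (0, 1, -1) (0, 0, 1) (by
    rw [Matrix.det_fin_three]
    simp) 0 0 0 B B L hB hB hL
  have e : Bxx B L = {A : ℝ × ℝ × ℝ | |dot A (1, -1, 0) - 0| ≤ B ∧ |dot A (0, 1, -1) - 0| ≤ B ∧
      |dot A (0, 0, 1) - 0| ≤ L} := by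
    ext y
    simp only [Bxx, Set.mem_ofPred_eq, dot]
    have e1 : y.1 * 1 + y.2.1 * -1 + y.2.2 * 0 - 0 = y.1 - y.2.1 := by ring
    have e2 : y.1 * 0 + y.2.1 * 1 + y.2.2 * -1 - 0 = y.2.1 - y.2.2 := by ring
    have e3 : y.1 * 0 + y.2.1 * 0 + y.2.2 * 1 - 0 = y.2.2 := by ring
    rw [e1, e2, e3]
  rw [e, h, Matrix.det_fin_three]
  congr 1
  have e3 : 8 * B * B * L = 8 * B ^ 2 * L := by ring
  rw [e3]
  simp

theorem Bxx_meas (B L : ℝ) : MeasurableSet (Bxx B L) := by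
  have c1 : Continuous fun y : ℝ × ℝ × ℝ => |y.1 - y.2.1| := by fun_prop
  have c2 : Continuous fun y : ℝ × ℝ × ℝ => |y.2.1 - y.2.2| := by fun_prop
  have c3 : Continuous fun y : ℝ × ℝ × ℝ => |y.2.2| := by fun_prop
  have h1 : IsClosed (Bxx B L) := (isClosed_le c1 continuous_const).inter
    ((isClosed_le c2 continuous_const).inter (isClosed_le c3 continuous_const))
  exact h1.measurableSet

theorem KM_qf_le {M : ℝ} (hM : 1 ≤ M) {A : ℝ × ℝ × ℝ} (hA : A ∈ KM (2 * M)) (x : ℝ × ℝ) :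
    0 ≤ qf A x ∧ qf A x ≤ 4 * M * ‖x‖ ^ 2 := by
  obtain ⟨h1, h2⟩ := hA x
  have h3 : 0 ≤ nr x := by unfold nr; positivity
  have h4 : nr x ≤ 2 * ‖x‖ ^ 2 := by
    have a1 := (n2 x).1
    have a2 := (n2 x).2
    have b1 : x.1 ^ 2 ≤ ‖x‖ ^ 2 := by
      rw [← sq_abs]
      exact pow_le_pow_left₀ (abs_nonneg _) a1 2
    have b2 : x.2 ^ 2 ≤ ‖x‖ ^ 2 := by
      rw [← sq_abs]
      exact pow_le_pow_left₀ (abs_nonneg _) a2 2
    unfold nr
    linarith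
  refine ⟨le_trans (by positivity) h1, h2.trans ?_⟩
  nlinarith

theorem Phi_supp {M R e K T V : ℝ} (hM : 1 ≤ M) (hR : 0 < R) (he : 0 < e) {p : ℝ × ℝ}
    (hV : V ≤ K * T) {h m : R6} (ho : Ok K T V (t3 m) (t3 h)) {y : ℝ × ℝ × ℝ}
    (hy : Phi M R e p h m y ≠ 0) : y ∈ Bxx (B0 e p) (8 * M * (K * T) ^ 2) := by
  have h1 : chK M (Sy h m y) ≠ 0 := left_ne_zero_of_mul hy
  have h2 : Ph R e p (dd5 h m (Sy h m y)) ≠ 0 := right_ne_zero_of_mul hy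
  have hA := (Pool.Agent.F5H.H41.chk M hM).2.2.1 _ h1
  obtain ⟨p1, p2, -, -, -⟩ := Ph_supp hR he h2
  rw [dd5_eq] at p1 p2
  have e0 : AW (Sy h m y) (t3 m) (t3 h) 0 = y.1 := by rw [Sy_eq, AW_sol ho]; rfl
  have e1 : AW (Sy h m y) (t3 m) (t3 h) 1 = y.2.1 := by rw [Sy_eq, AW_sol ho]; rfl
  have e2 : AW (Sy h m y) (t3 m) (t3 h) 2 = y.2.2 := by rw [Sy_eq, AW_sol ho]; rfl
  rw [e0, e1] at p1
  rw [e1, e2] at p2
  refine ⟨p1, p2, ?_⟩
  rw [← e2]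
  unfold AW
  have a1 := KM_qf_le hM hA (t3 m 2)
  have a2 := KM_qf_le hM hA (t3 h 2)
  have b1 : ‖t3 m 2‖ ^ 2 ≤ (K * T) ^ 2 := pow_le_pow_left₀ (norm_nonneg _) (ho.hm 2) 2
  have b2 : ‖t3 h 2‖ ^ 2 ≤ (K * T) ^ 2 :=
    pow_le_pow_left₀ (norm_nonneg _) ((ho.hh 2).trans hV) 2
  have c1 := mul_le_mul_of_nonneg_left b1 (by linarith : 0 ≤ 4 * M)
  have c2 := mul_le_mul_of_nonneg_left b2 (by linarith : 0 ≤ 4 * M)
  have c3 : 0 ≤ M * (K * T) ^ 2 := by positivity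
  rw [abs_le]
  constructor <;> linarith [a1.1, a1.2, a2.1, a2.2]

theorem Phi_bd {M R e : ℝ} (hM : 1 ≤ M) (hR : 0 < R) (he : 0 < e) (p : ℝ × ℝ) (h m : R6)
    (y : ℝ × ℝ × ℝ) : 0 ≤ Phi M R e p h m y ∧ Phi M R e p h m y ≤ e ^ 2 := by
  have h1 := (Pool.Agent.F5H.H41.chk M hM).1 (Sy h m y)
  have h2 := Ph_nonneg hR e p (dd5 h m (Sy h m y))
  have h3 := Ph_le hR he p (dd5 h m (Sy h m y))
  refine ⟨mul_nonneg h1.1 h2, ?_⟩
  calc Phi M R e p h m y ≤ 1 * e ^ 2 := mul_le_mul h1.2 h3 h2 zero_le_one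
    _ = e ^ 2 := one_mul _

theorem Phi_int {M R e K T V : ℝ} (hM : 1 ≤ M) (hR : 0 < R) (he : 0 < e) {p : ℝ × ℝ}
    (hV : V ≤ K * T) {h m : R6} (ho : Ok K T V (t3 m) (t3 h)) :
    Integrable (Phi M R e p h m) := by
  have hB : 0 ≤ B0 e p := by unfold B0; positivity
  have h1 : IntegrableOn (Phi M R e p h m) (Bxx (B0 e p) (8 * M * (K * T) ^ 2)) := by
    refine Measure.integrableOn_of_bounded (M := e ^ 2) ?_ ?_ ?_
    · rw [Bxx_vol hB (by positivity)]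
      exact ENNReal.ofReal_ne_top
    · exact (Phi_cont hM hR he p h m).aestronglyMeasurable
    · refine Filter.Eventually.of_forall fun y => ?_
      obtain ⟨a, b⟩ := Phi_bd hM hR he p h m y
      rw [Real.norm_eq_abs, abs_of_nonneg a]
      exact b
  refine (integrableOn_iff_integrable_of_support_subset ?_).1 h1
  intro y hy
  exact Phi_supp hM hR he hV ho hy

/-- the inverse determinant -/
theorem inv_nn {K T V : ℝ} {m h : T3} (ho : Ok K T V m h) :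
    |Helper48_F5.nn m h|⁻¹ ≤ 6 * (K / T ^ 2) ^ 3 := by
  have hn := nn_ne_zero ho
  have key : ∀ f : Fin 3 → ℝ, (∀ l, |f l| ≤ 1) → ‖sol m h f‖ ≤ K / T ^ 2 := fun f hf => by
    have := norm_sol_le ho hf
    rwa [mul_one] at this
  have k0 := key ![1, 0, 0] (fun l => by fin_cases l <;> simp)
  have k1 := key ![0, 1, 0] (fun l => by fin_cases l <;> simp)
  have k2 := key ![0, 0, 1] (fun l => by fin_cases l <;> simp)
  have e0 : sol m h ![1, 0, 0] = (Helper48_F5.nn m h)⁻¹ • cr (wv m h 1) (wv m h 2) := by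
    unfold sol
    congr 1
    change (1 : ℝ) • cr (wv m h 1) (wv m h 2) + ((0 : ℝ) • cr (wv m h 2) (wv m h 0) +
      (0 : ℝ) • cr (wv m h 0) (wv m h 1)) = _
    simp
  have e1 : sol m h ![0, 1, 0] = (Helper48_F5.nn m h)⁻¹ • cr (wv m h 2) (wv m h 0) := by
    unfold sol
    congr 1
    change (0 : ℝ) • cr (wv m h 1) (wv m h 2) + ((1 : ℝ) • cr (wv m h 2) (wv m h 0) +
      (0 : ℝ) • cr (wv m h 0) (wv m h 1)) = _
    simp
  have e2 : sol m h ![0, 0, 1] = (Helper48_F5.nn m h)⁻¹ • cr (wv m h 0) (wv m h 1) := by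
    unfold sol
    congr 1
    change (0 : ℝ) • cr (wv m h 1) (wv m h 2) + ((0 : ℝ) • cr (wv m h 2) (wv m h 0) +
      (1 : ℝ) • cr (wv m h 0) (wv m h 1)) = _
    simp
  rw [e0] at k0
  rw [e1] at k1
  rw [e2] at k2
  have h1 := d3_le k0 k1 k2
  rw [d3_smul1, d3_smul2, d3_smul3] at h1
  have e3 : d3 (cr (wv m h 1) (wv m h 2)) (cr (wv m h 2) (wv m h 0))
      (cr (wv m h 0) (wv m h 1)) = Helper48_F5.nn m h ^ 2 := by
    simp only [Helper48_F5.nn, d3, dot, cr]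
    ring
  rw [e3] at h1
  have e4 : (Helper48_F5.nn m h)⁻¹ * ((Helper48_F5.nn m h)⁻¹ * ((Helper48_F5.nn m h)⁻¹ * Helper48_F5.nn m h ^ 2)) = (Helper48_F5.nn m h)⁻¹ := by
    field_simp
  rw [e4, abs_inv] at h1
  refine h1.trans (le_of_eq (by ring))

end Pool.Agent.F5H.LIP
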