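import Pool.Agent.Helper85_F5H.Ker

/-!
MP_f5cbfa_nt, squad F5H, block LIP: bound and Lipschitz bound of the average over the forms.
-/

set_option autoImplicit false

open MeasureTheory Filter Topology

namespace Pool.Agent.F5H.LIP

open Pool.Agent.BTL Pool.Agent.F5S Pool.Agent.F5H Pool.Agent.Helper48_F5

theorem int_Phi_le {M R e K T V : ℝ} (hM : 1 ≤ M) (hMK : M ≤ K) {p : ℝ × ℝ}
    (hBK : B0 e p ≤ K) (heK : e ≤ K) (hR : 0 < R) (he : 0 < e)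
    (hV : V ≤ K * T) {h m : R6} (ho : Ok K T V (t3 m) (t3 h)) :
    0 ≤ ∫ y, Phi M R e p h m y ∧ ∫ y, Phi M R e p h m y ≤ 64 * K ^ 7 * T ^ 2 := by
  have hB : 0 ≤ B0 e p := by unfold B0; positivity
  have hK : 1 ≤ K := hM.trans hMK
  have h1 := Pool.Agent.F5H.H56.int_bd (Phi M R e p h m) (Bxx (B0 e p) (8 * M * (K * T) ^ 2))
    (8 * (B0 e p) ^ 2 * (8 * M * (K * T) ^ 2)) (e ^ 2) (by positivity)
    (fun y => (Phi_bd hM hR he p h m y).1) (fun y => (Phi_bd hM hR he p h m y).2)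
    (fun y hy => Phi_supp hM hR he hV ho hy)
    (by rw [Bxx_vol hB (by positivity)]) (by positivity)
  refine ⟨h1.1, h1.2.trans ?_⟩
  have a1 : (B0 e p) ^ 2 ≤ K ^ 2 := pow_le_pow_left₀ hB hBK 2
  have a2 : e ^ 2 ≤ K ^ 2 := pow_le_pow_left₀ he.le heK 2
  have a3 : 8 * M * (K * T) ^ 2 ≤ 8 * K * (K * T) ^ 2 := by
    have : 0 ≤ (K * T) ^ 2 := sq_nonneg _
    nlinarith
  calc 8 * (B0 e p) ^ 2 * (8 * M * (K * T) ^ 2) * e ^ 2
      ≤ 8 * K ^ 2 * (8 * K * (K * T) ^ 2) * K ^ 2 := by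
        refine mul_le_mul (mul_le_mul (by linarith) a3 (by positivity) (by positivity)) a2
          (by positivity) (by positivity)
    _ = 64 * K ^ 7 * T ^ 2 := by ring

theorem gA_le {M R e K T V : ℝ} (hM : 1 ≤ M) (hMK : M ≤ K) {p : ℝ × ℝ}
    (hBK : B0 e p ≤ K) (heK : e ≤ K) (hT : 0 < T) (hR : 0 < R) (he : 0 < e)
    (hV : V ≤ K * T) {h m : R6} (ho : Ok K T V (t3 m) (t3 h)) :
    0 ≤ gA M R e p h m ∧ gA M R e p h m ≤ 384 * K ^ 10 * (T ^ 4)⁻¹ := by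
  obtain ⟨i0, i1⟩ := int_Phi_le hM hMK hBK heK hR he hV ho
  have hK : 0 < K := by linarith
  have h2 := inv_nn ho
  have h3 : 0 ≤ |Helper48_F5.nn (t3 m) (t3 h)|⁻¹ := by positivity
  rw [gA_eq ho]
  refine ⟨mul_nonneg h3 i0, ?_⟩
  calc |Helper48_F5.nn (t3 m) (t3 h)|⁻¹ * ∫ y, Phi M R e p h m y
      ≤ 6 * (K / T ^ 2) ^ 3 * (64 * K ^ 7 * T ^ 2) := mul_le_mul h2 i1 i0 (by positivity)
    _ = 384 * K ^ 10 * (T ^ 4)⁻¹ := by
        field_simp
        ring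

theorem gA_nonneg {M R e : ℝ} (hM : 1 ≤ M) (hR : 0 < R) (p : ℝ × ℝ) (h m : R6) :
    0 ≤ gA M R e p h m :=
  integral_nonneg fun A => mul_nonneg ((Pool.Agent.F5H.H41.chk M hM).1 A).1
    (Ph_nonneg hR e p _)

theorem gA_supp {M R e : ℝ} {p : ℝ × ℝ} {h m : R6} (hg : gA M R e p h m ≠ 0) :
    ∃ A, chK M A ≠ 0 ∧ Ph R e p (dd5 h m A) ≠ 0 := by
  by_contra hc
  push Not at hc
  apply hg
  unfold gA
  rw [← integral_zero (ℝ × ℝ × ℝ) ℝ]
  refine integral_congr_ae (Filter.Eventually.of_forall fun A => ?_)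
  by_cases hA : chK M A = 0
  · simp only [hA, zero_mul]
  · simp only [hc A hA, mul_zero]

theorem t3_add (m u : R6) : t3 (m + u) = t3 m + t3 u := by
  funext l
  fin_cases l <;> rfl

theorem t3_norm (u : R6) (l : Fin 3) : ‖t3 u l‖ ≤ ‖u‖ := by
  fin_cases l
  · exact (n6 u).1
  · exact (n6 u).2.1
  · exact (n6 u).2.2

section

variable {M R e K T V eta : ℝ} {p : ℝ × ℝ} {h m u : R6}

theorem box_le (hK : 1 ≤ K) (hMK : M ≤ K) (hM : 1 ≤ M) (hT : 1 ≤ T) (hBK : B0 e p ≤ K)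
    {y : ℝ × ℝ × ℝ} (hy : y ∈ Bxx (B0 e p) (8 * M * (K * T) ^ 2)) :
    |y.2.2| ≤ 8 * K ^ 3 * T ^ 2 ∧ (∀ l, |(![y.1, y.2.1, y.2.2] : Fin 3 → ℝ) l - y.2.2| ≤ 2 * K) ∧
    ∀ l, |(![y.1, y.2.1, y.2.2] : Fin 3 → ℝ) l| ≤ 10 * K ^ 3 * T ^ 2 := by
  obtain ⟨h1, h2, h3⟩ := hy
  have a1 : 8 * M * (K * T) ^ 2 ≤ 8 * K ^ 3 * T ^ 2 := by
    have : 8 * M * (K * T) ^ 2 ≤ 8 * K * (K * T) ^ 2 := by
      have : 0 ≤ (K * T) ^ 2 := sq_nonneg _
      nlinarith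
    refine this.trans (le_of_eq (by ring))
  have a2 := h3.trans a1
  have a3 : K ≤ K ^ 3 * T ^ 2 := by
    have b1 : K ≤ K ^ 3 := le_self_pow₀ hK (by norm_num)
    have b2 : 1 ≤ T ^ 2 := one_le_pow₀ hT
    have b3 : K ^ 3 ≤ K ^ 3 * T ^ 2 := le_mul_of_one_le_right (by positivity) b2
    linarith
  rw [abs_le] at h1 h2
  have c1 : |y.1 - y.2.2| ≤ 2 * K := by
    rw [abs_le]; constructor <;> linarith [h1.1, h1.2, h2.1, h2.2]
  have c2 : |y.2.1 - y.2.2| ≤ 2 * K := by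
    rw [abs_le]; constructor <;> linarith [h2.1, h2.2]
  have c3 : |y.2.2 - y.2.2| ≤ 2 * K := by
    rw [sub_self, abs_zero]; linarith
  have c4 : ∀ l, |(![y.1, y.2.1, y.2.2] : Fin 3 → ℝ) l - y.2.2| ≤ 2 * K := by
    intro l
    fin_cases l
    · exact c1
    · exact c2
    · exact c3
  refine ⟨a2, c4, fun l => ?_⟩
  have := c4 l
  rw [abs_le] at this a2 ⊢
  constructor <;> linarith [this.1, this.2, a2.1, a2.2]

theorem Sy_norm (hT : 1 ≤ T) (hK : 1 ≤ K) (hMK : M ≤ K) (hM : 1 ≤ M) (hBK : B0 e p ≤ K)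
    (ho : Ok K T V (t3 m) (t3 h))
    {y : ℝ × ℝ × ℝ} (hy : y ∈ Bxx (B0 e p) (8 * M * (K * T) ^ 2)) :
    ‖Sy h m y‖ ≤ 10 * K ^ 4 := by
  have h1 := norm_sol_le ho (box_le hK hMK hM hT hBK hy).2.2
  rw [Sy_eq]
  have hT0 : 0 < T := by linarith
  refine h1.trans (le_of_eq ?_)
  field_simp

/-- the form for the same values at a near midpoint -/
theorem Sy_move (hT : 1 ≤ T) (hK : 1 ≤ K) (hMK : M ≤ K) (hM : 1 ≤ M) (hBK : B0 e p ≤ K)
    (he0 : 0 ≤ eta) (he1 : eta ≤ 1) (hu : ‖u‖ ≤ eta * T)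
    (ho : Ok K T V (t3 m) (t3 h)) (ho' : Ok K T V (t3 (m + u)) (t3 h))
    {y : ℝ × ℝ × ℝ} (hy : y ∈ Bxx (B0 e p) (8 * M * (K * T) ^ 2)) :
    ‖Sy h (m + u) y - Sy h m y‖ ≤ 120 * K ^ 6 * eta := by
  have hT0 : 0 < T := by linarith
  have hS := Sy_norm hT hK hMK hM hBK ho hy
  have key : ∀ l, |AW (Sy h (m + u) y - Sy h m y) (t3 (m + u)) (t3 h) l| ≤
      120 * K ^ 5 * T ^ 2 * eta := by
    intro l
    have e1 : AW (Sy h (m + u) y - Sy h m y) (t3 (m + u)) (t3 h) l =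
        -(2 * Helper48_F5.bl (Sy h m y) (t3 m l) (t3 u l) + qf (Sy h m y) (t3 u l)) := by
      rw [AW_sub, Sy_eq h (m + u) y, AW_sol ho', t3_add, AW_move, Sy_eq h m y, AW_sol ho]
      ring
    rw [e1, abs_neg]
    have hul : ‖t3 u l‖ ≤ eta * T := (t3_norm u l).trans hu
    have b1 := blb hS (ho.hm l) hul
    have b2 := blb hS hul hul
    rw [bl_self] at b2
    have b3 : 4 * (10 * K ^ 4) * (eta * T) * (eta * T) ≤ 40 * K ^ 5 * T ^ 2 * eta := by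
      have c1 : eta * eta ≤ eta := by nlinarith
      have c2 : K ^ 4 ≤ K ^ 5 := pow_le_pow_right₀ hK (by norm_num)
      have c3 : K ^ 4 * (T ^ 2 * (eta * eta)) ≤ K ^ 5 * (T ^ 2 * eta) :=
        mul_le_mul c2 (mul_le_mul_of_nonneg_left c1 (by positivity)) (by positivity)
          (by positivity)
      linarith
    refine (abs_add_le _ _).trans ?_
    rw [abs_mul, abs_two]
    have b4 : 2 * (4 * (10 * K ^ 4) * (K * T) * (eta * T)) = 80 * K ^ 5 * T ^ 2 * eta := by ring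
    linarith
  have h1 := ho'.inv _ _ key
  refine h1.trans (le_of_eq ?_)
  field_simp

/-- the products in terms of `F` -/
theorem bl_Sy (hT : 1 ≤ T) (hK : 1 ≤ K) (hMK : M ≤ K) (hM : 1 ≤ M) (hBK : B0 e p ≤ K)
    (hV0 : 0 ≤ V) (hVe : V ≤ eta * T)
    (ho : Ok K T V (t3 m) (t3 h))
    {y : ℝ × ℝ × ℝ} (hy : y ∈ Bxx (B0 e p) (8 * M * (K * T) ^ 2)) (l : Fin 3) :
    |Helper48_F5.bl (Sy h m y) (t3 m l) (t3 h l) - y.2.2 / T ^ 2 * Ff T (t3 m) (t3 h) l| ≤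
      8 * K ^ 3 * eta := by
  have hT0 : 0 < T := by linarith
  set A0 := Sy h m y - (y.2.2 / T ^ 2) • Zf T (t3 m) (t3 h) with hA0
  have key : ∀ l, |AW A0 (t3 m) (t3 h) l| ≤ 2 * K := by
    intro l
    have e1 : AW A0 (t3 m) (t3 h) l = (![y.1, y.2.1, y.2.2] : Fin 3 → ℝ) l - y.2.2 := by
      rw [hA0, AW_sub, AW_smul, AW_Zf ho, Sy_eq, AW_sol ho]
      field_simp
    rw [e1]
    exact (box_le hK hMK hM hT hBK hy).2.1 l
  have hA := ho.inv _ _ key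
  have b1 := blb hA (ho.hm l) (ho.hh l)
  have e2 : Helper48_F5.bl (Sy h m y) (t3 m l) (t3 h l) -
      y.2.2 / T ^ 2 * Ff T (t3 m) (t3 h) l = Helper48_F5.bl A0 (t3 m l) (t3 h l) := by
    rw [hA0, bl_sub_form, bl_smul_form]
    rfl
  rw [e2]
  refine b1.trans ?_
  have e3 : 4 * (K * (2 * K) / T ^ 2) * (K * T) * V = 8 * K ^ 3 * (V / T) := by
    field_simp
    ring
  rw [e3]
  have : V / T ≤ eta := by
    rw [div_le_iff₀ hT0]
    exact hVe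
  exact mul_le_mul_of_nonneg_left this (by positivity)

/-- change of the integrand -/
theorem Phi_move (hT : 1 ≤ T) (hK : 1 ≤ K) (hMK : M ≤ K) (hM : 1 ≤ M) (hBK : B0 e p ≤ K)
    (heK : e ≤ K) (he : 0 < e) (hR : 1 ≤ R)
    (he0 : 0 ≤ eta) (he1 : eta ≤ 1) (hu : ‖u‖ ≤ eta * T) (hV0 : 0 ≤ V) (hVe : V ≤ eta * T)
    (ho : Ok K T V (t3 m) (t3 h)) (ho' : Ok K T V (t3 (m + u)) (t3 h))
    (hF : ∀ i j, |(Ff T (t3 (m + u)) (t3 h) i - Ff T (t3 (m + u)) (t3 h) j) -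
      (Ff T (t3 m) (t3 h) i - Ff T (t3 m) (t3 h) j)| ≤ eta)
    (hF2 : |Ff T (t3 (m + u)) (t3 h) 2 - Ff T (t3 m) (t3 h) 2| ≤ eta * R)
    {y : ℝ × ℝ × ℝ} (hy : y ∈ Bxx (B0 e p) (8 * M * (K * T) ^ 2)) :
    |Phi M R e p h (m + u) y - Phi M R e p h m y| ≤ 2000 * K ^ 9 * eta := by
  have hT0 : 0 < T := by linarith
  have hR0 : 0 < R := by linarith
  have hK0 : 0 < K := by linarith
  have hS := Sy_move hT hK hMK hM hBK he0 he1 hu ho ho' hy
  have hlam : |y.2.2 / T ^ 2| ≤ 8 * K ^ 3 := by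
    rw [abs_div, abs_of_pos (by positivity : 0 < T ^ 2), div_le_iff₀ (by positivity)]
    exact (box_le hK hMK hM hT hBK hy).1
  set A := Sy h m y with hA
  set A' := Sy h (m + u) y with hA'
  have c1 := (Pool.Agent.F5H.H41.chk M hM).2.2.2 A' A
  have c0 := (Pool.Agent.F5H.H41.chk M hM).1
  have o := fun l => bl_Sy hT hK hMK hM hBK hV0 hVe ho hy l
  have o' := fun l => bl_Sy hT hK hMK hM hBK hV0 hVe ho' hy l
  rw [← hA] at o
  rw [← hA'] at o'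
  have lamb : ∀ x b : ℝ, |x| ≤ b → |y.2.2 / T ^ 2 * x| ≤ 8 * K ^ 3 * b := by
    intro x b hx
    rw [abs_mul]
    exact mul_le_mul hlam hx (abs_nonneg _) (by positivity)
  have d1 : ∀ i j, |(Helper48_F5.bl A' (t3 (m + u) i) (t3 h i) -
      Helper48_F5.bl A' (t3 (m + u) j) (t3 h j)) -
      (Helper48_F5.bl A (t3 m i) (t3 h i) - Helper48_F5.bl A (t3 m j) (t3 h j))| ≤
      40 * K ^ 3 * eta := by
    intro i j
    have h1 := lamb _ _ (hF i j)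
    have h2 := o i
    have h3 := o j
    have h4 := o' i
    have h5 := o' j
    rw [abs_le] at h1 h2 h3 h4 h5 ⊢
    constructor <;> nlinarith [h1.1, h1.2, h2.1, h2.2, h3.1, h3.2, h4.1, h4.2, h5.1, h5.2]
  have d2 : |Helper48_F5.bl A' (t3 (m + u) 2) (t3 h 2) - Helper48_F5.bl A (t3 m 2) (t3 h 2)| ≤
      24 * K ^ 3 * eta * R := by
    have h1 := lamb _ _ hF2
    have h2 := o 2
    have h4 := o' 2
    have h6 : 8 * K ^ 3 * eta ≤ 8 * K ^ 3 * eta * R :=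
      le_mul_of_one_le_right (by positivity) hR
    rw [abs_le] at h1 h2 h4 ⊢
    constructor <;> nlinarith [h1.1, h1.2, h2.1, h2.2, h4.1, h4.2]
  have hP := Ph_lip hR0 he p (dd5 h (m + u) A') (dd5 h m A)
  have v' : ∀ l, AW A' (t3 (m + u)) (t3 h) l = (![y.1, y.2.1, y.2.2] : Fin 3 → ℝ) l := by
    intro l
    rw [hA', Sy_eq, AW_sol ho']
  have v : ∀ l, AW A (t3 m) (t3 h) l = (![y.1, y.2.1, y.2.2] : Fin 3 → ℝ) l := by
    intro l
    rw [hA, Sy_eq, AW_sol ho]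
  have q1 : (dd5 h (m + u) A').1.1 = (dd5 h m A).1.1 := by
    rw [dd5_eq, dd5_eq]
    change AW A' (t3 (m + u)) (t3 h) 0 - AW A' (t3 (m + u)) (t3 h) 1 =
      AW A (t3 m) (t3 h) 0 - AW A (t3 m) (t3 h) 1
    rw [v', v', v, v]
  have q2 : (dd5 h (m + u) A').1.2 = (dd5 h m A).1.2 := by
    rw [dd5_eq, dd5_eq]
    change AW A' (t3 (m + u)) (t3 h) 1 - AW A' (t3 (m + u)) (t3 h) 2 =
      AW A (t3 m) (t3 h) 1 - AW A (t3 m) (t3 h) 2
    rw [v', v', v, v]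
  have q3 : |(dd5 h (m + u) A').2.1.1 - (dd5 h m A).2.1.1| ≤ 40 * K ^ 3 * eta := by
    rw [dd5_eq, dd5_eq]
    exact d1 0 1
  have q4 : |(dd5 h (m + u) A').2.1.2 - (dd5 h m A).2.1.2| ≤ 40 * K ^ 3 * eta := by
    rw [dd5_eq, dd5_eq]
    exact d1 1 2
  have q5 : |(dd5 h (m + u) A').2.2 - (dd5 h m A).2.2| / R ≤ 24 * K ^ 3 * eta := by
    rw [dd5_eq, dd5_eq, div_le_iff₀ hR0]
    exact d2
  have hPb : |Ph R e p (dd5 h (m + u) A') - Ph R e p (dd5 h m A)| ≤ 368 * K ^ 5 * eta := by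
    refine hP.trans ?_
    rw [q1, q2, sub_self, sub_self, abs_zero, zero_add, zero_add]
    have r1 : 4 * e * (|(dd5 h (m + u) A').2.1.1 - (dd5 h m A).2.1.1| +
        |(dd5 h (m + u) A').2.1.2 - (dd5 h m A).2.1.2|) ≤
        4 * K * (40 * K ^ 3 * eta + 40 * K ^ 3 * eta) :=
      mul_le_mul (by linarith) (add_le_add q3 q4) (by positivity) (by positivity)
    have r2 : 2 * e ^ 2 * (|(dd5 h (m + u) A').2.2 - (dd5 h m A).2.2| / R) ≤
        2 * K ^ 2 * (24 * K ^ 3 * eta) :=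
      mul_le_mul (by nlinarith [pow_le_pow_left₀ he.le heK 2]) q5 (by positivity) (by positivity)
    have r3 : K ^ 4 * eta ≤ K ^ 5 * eta :=
      mul_le_mul_of_nonneg_right (pow_le_pow_right₀ hK (by norm_num)) he0
    linarith
  have hchk : |chK M A' - chK M A| ≤ 1440 * K ^ 7 * eta := by
    refine c1.trans ?_
    calc 12 * M * ‖A' - A‖ ≤ 12 * K * (120 * K ^ 6 * eta) :=
          mul_le_mul (by linarith) hS (norm_nonneg _) (by positivity)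
      _ = 1440 * K ^ 7 * eta := by ring
  have hPle : Ph R e p (dd5 h m A) ≤ K ^ 2 :=
    (Ph_le hR0 he p _).trans (pow_le_pow_left₀ he.le heK 2)
  have hP0 := Ph_nonneg hR0 e p (dd5 h m A)
  have e5 : Phi M R e p h (m + u) y - Phi M R e p h m y =
      chK M A' * (Ph R e p (dd5 h (m + u) A') - Ph R e p (dd5 h m A)) +
      (chK M A' - chK M A) * Ph R e p (dd5 h m A) := by
    simp only [Phi, ← hA, ← hA']
    ring
  rw [e5]
  refine (abs_add_le _ _).trans ?_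
  rw [abs_mul, abs_mul, abs_of_nonneg (c0 A').1, abs_of_nonneg hP0]
  have t1 : chK M A' * |Ph R e p (dd5 h (m + u) A') - Ph R e p (dd5 h m A)| ≤
      1 * (368 * K ^ 5 * eta) := mul_le_mul (c0 A').2 hPb (abs_nonneg _) zero_le_one
  have t2 : |chK M A' - chK M A| * Ph R e p (dd5 h m A) ≤ 1440 * K ^ 7 * eta * K ^ 2 :=
    mul_le_mul hchk hPle hP0 (by positivity)
  have t3 : K ^ 5 * eta ≤ K ^ 9 * eta :=
    mul_le_mul_of_nonneg_right (pow_le_pow_right₀ hK (by norm_num)) he0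
  have t4 : 0 ≤ K ^ 9 * eta := by positivity
  nlinarith

theorem vq_le (x : ℝ × ℝ) : ‖vq x‖ ≤ 2 * ‖x‖ ^ 2 := by
  have h1 := (n2 x).1
  have h2 := (n2 x).2
  have e1 : |x.1| * |x.1| ≤ ‖x‖ * ‖x‖ := mul_le_mul h1 h1 (abs_nonneg _) (norm_nonneg _)
  have e2 : |x.1| * |x.2| ≤ ‖x‖ * ‖x‖ := mul_le_mul h1 h2 (abs_nonneg _) (norm_nonneg _)
  have e3 : |x.2| * |x.2| ≤ ‖x‖ * ‖x‖ := mul_le_mul h2 h2 (abs_nonneg _) (norm_nonneg _)
  have e0 : 0 ≤ ‖x‖ * ‖x‖ := mul_nonneg (norm_nonneg _) (norm_nonneg _)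
  refine n3_le ?_ ?_ ?_
  · simp only [vq]
    rw [abs_pow]
    nlinarith
  · simp only [vq]
    rw [abs_mul, abs_mul, abs_two]
    nlinarith
  · simp only [vq]
    rw [abs_pow]
    nlinarith

/-- change of the determinant -/
theorem nn_move (hT : 1 ≤ T) (hK : 1 ≤ K)
    (he0 : 0 ≤ eta) (he1 : eta ≤ 1) (hu : ‖u‖ ≤ eta * T) (hV0 : 0 ≤ V) (hVT : V ≤ T)
    (ho : Ok K T V (t3 m) (t3 h)) (ho' : Ok K T V (t3 (m + u)) (t3 h)) :
    |Helper48_F5.nn (t3 (m + u)) (t3 h) - Helper48_F5.nn (t3 m) (t3 h)| ≤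
      972 * K ^ 5 * T ^ 6 * eta := by
  have hT0 : 0 < T := by linarith
  have hK0 : 0 < K := by linarith
  have wb : ∀ {x : T3}, Ok K T V x (t3 h) → ∀ l, ‖wv x (t3 h) l‖ ≤ 3 * K ^ 2 * T ^ 2 := by
    intro x hx l
    have h1 := vq_le (x l)
    have h2 := vq_le (t3 h l)
    have h3 : ‖x l‖ ^ 2 ≤ (K * T) ^ 2 := pow_le_pow_left₀ (norm_nonneg _) (hx.hm l) 2
    have h4 : ‖t3 h l‖ ^ 2 ≤ T ^ 2 := pow_le_pow_left₀ (norm_nonneg _) ((hx.hh l).trans hVT) 2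
    refine nadd h1 (nsmul3 (le_refl _) h2 (le_refl _)) ?_
    rw [abs_of_pos (by norm_num : (0 : ℝ) < 1 / 4)]
    have h5 : T ^ 2 ≤ K ^ 2 * T ^ 2 := le_mul_of_one_le_left (by positivity) (one_le_pow₀ hK)
    nlinarith
  have w0 := wb ho
  have w1 := wb ho'
  have dw : ∀ l, ‖wv (t3 (m + u)) (t3 h) l - wv (t3 m) (t3 h) l‖ ≤ 6 * K * T ^ 2 * eta := by
    intro l
    have hul : ‖t3 u l‖ ≤ eta * T := (t3_norm u l).trans hu
    have e1 : wv (t3 (m + u)) (t3 h) l - wv (t3 m) (t3 h) l =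
        (2 : ℝ) • vb (t3 m l) (t3 u l) + vq (t3 u l) := by
      rw [t3_add]
      simp only [wv, vq, vb, Pi.add_apply]
      refine Prod.ext ?_ (Prod.ext ?_ ?_) <;>
      · simp only [Prod.fst_add, Prod.snd_add, Prod.fst_sub, Prod.snd_sub, Prod.smul_fst,
          Prod.smul_snd, smul_eq_mul]
        ring
    have b0 : ‖vb (t3 m l) (t3 u l)‖ ≤ 2 * (K * T * (eta * T)) := by
      have i1 := (n2 (t3 m l)).1.trans (ho.hm l)
      have i2 := (n2 (t3 m l)).2.trans (ho.hm l)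
      have i3 := (n2 (t3 u l)).1.trans hul
      have i4 := (n2 (t3 u l)).2.trans hul
      have j0 : 0 ≤ K * T := by positivity
      have j1 : |(t3 m l).1 * (t3 u l).1| ≤ K * T * (eta * T) := by
        rw [abs_mul]; exact mul_le_mul i1 i3 (abs_nonneg _) j0
      have j2 : |(t3 m l).1 * (t3 u l).2| ≤ K * T * (eta * T) := by
        rw [abs_mul]; exact mul_le_mul i1 i4 (abs_nonneg _) j0
      have j3 : |(t3 m l).2 * (t3 u l).1| ≤ K * T * (eta * T) := by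
        rw [abs_mul]; exact mul_le_mul i2 i3 (abs_nonneg _) j0
      have j4 : |(t3 m l).2 * (t3 u l).2| ≤ K * T * (eta * T) := by
        rw [abs_mul]; exact mul_le_mul i2 i4 (abs_nonneg _) j0
      have j5 : 0 ≤ K * T * (eta * T) := by positivity
      refine n3_le ?_ ?_ ?_
      · simp only [vb]
        linarith
      · simp only [vb]
        exact (abs_add_le _ _).trans (by linarith)
      · simp only [vb]
        linarith
    have b1 := vq_le (t3 u l)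
    have b2 : ‖t3 u l‖ ^ 2 ≤ (eta * T) ^ 2 := pow_le_pow_left₀ (norm_nonneg _) hul 2
    have b3 : (eta * T) ^ 2 ≤ K * T ^ 2 * eta := by
      have c1 : eta * eta ≤ eta := by nlinarith
      have c2 : T ^ 2 * (eta * eta) ≤ T ^ 2 * eta := mul_le_mul_of_nonneg_left c1 (by positivity)
      have c3 : 1 * (T ^ 2 * eta) ≤ K * (T ^ 2 * eta) :=
        mul_le_mul_of_nonneg_right hK (by positivity)
      nlinarith
    rw [e1]
    refine nadd (nsmul3 (le_refl _) b0 (le_refl _)) b1 ?_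
    rw [abs_two]
    nlinarith
  rw [nn_eq_d3, nn_eq_d3]
  set a := wv (t3 m) (t3 h) with ha
  set b := wv (t3 (m + u)) (t3 h) with hb
  have e2 : d3 (b 0) (b 1) (b 2) - d3 (a 0) (a 1) (a 2) = d3 (b 0 - a 0) (b 1) (b 2) +
      d3 (a 0) (b 1 - a 1) (b 2) + d3 (a 0) (a 1) (b 2 - a 2) := by
    simp only [d3, dot, cr, Prod.fst_sub, Prod.snd_sub]
    ring
  rw [e2]
  refine (abs_add_le _ _).trans ((add_le_add ((abs_add_le _ _).trans (add_le_add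
    (d3_le (dw 0) (w1 1) (w1 2)) (d3_le (w0 0) (dw 1) (w1 2)))) (d3_le (w0 0) (w0 1)
    (dw 2))).trans (le_of_eq (by ring)))

/-- Lipschitz bound of the average over the forms -/
theorem gA_move (hT : 1 ≤ T) (hMK : M ≤ K) (hM : 1 ≤ M) (hBK : B0 e p ≤ K)
    (heK : e ≤ K) (he : 0 < e) (hR : 1 ≤ R)
    (he0 : 0 ≤ eta) (he1 : eta ≤ 1) (hu : ‖u‖ ≤ eta * T) (hV0 : 0 ≤ V) (hVe : V ≤ eta * T)
    (ho : Ok K T V (t3 m) (t3 h)) (ho' : Ok K T V (t3 (m + u)) (t3 h))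
    (hF : ∀ i j, |(Ff T (t3 (m + u)) (t3 h) i - Ff T (t3 (m + u)) (t3 h) j) -
      (Ff T (t3 m) (t3 h) i - Ff T (t3 m) (t3 h) j)| ≤ eta)
    (hF2 : |Ff T (t3 (m + u)) (t3 h) 2 - Ff T (t3 m) (t3 h) 2| ≤ eta * R) :
    |gA M R e p h (m + u) - gA M R e p h m| ≤ 4 * 10 ^ 6 * K ^ 18 * (T ^ 4)⁻¹ * eta := by
  have hK : 1 ≤ K := hM.trans hMK
  have hT0 : 0 < T := by linarith
  have hR0 : 0 < R := by linarith
  have hK0 : 0 < K := by linarith
  have hVT : V ≤ T := hVe.trans (by nlinarith)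
  have hVK : V ≤ K * T := hVT.trans (by nlinarith)
  have hB : 0 ≤ B0 e p := by unfold B0; positivity
  have i1 := Phi_int hM hR0 he (p := p) hVK ho
  have i2 := Phi_int hM hR0 he (p := p) hVK ho'
  obtain ⟨I0, I1⟩ := int_Phi_le hM hMK hBK heK hR0 he hVK ho'
  have hD : |(∫ y, Phi M R e p h (m + u) y) - ∫ y, Phi M R e p h m y| ≤
      128000 * K ^ 14 * T ^ 2 * eta := by
    rw [← integral_sub i2 i1]
    have e2 : ∫ y, (Phi M R e p h (m + u) y - Phi M R e p h m y) =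
        ∫ y in Bxx (B0 e p) (8 * M * (K * T) ^ 2),
          (Phi M R e p h (m + u) y - Phi M R e p h m y) := by
      rw [setIntegral_eq_integral_of_forall_compl_eq_zero]
      intro y hy
      have z1 : Phi M R e p h (m + u) y = 0 := by
        by_contra hne
        exact hy (Phi_supp hM hR0 he hVK ho' hne)
      have z2 : Phi M R e p h m y = 0 := by
        by_contra hne
        exact hy (Phi_supp hM hR0 he hVK ho hne)
      rw [z1, z2, sub_zero]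
    rw [e2]
    have hv : volume (Bxx (B0 e p) (8 * M * (K * T) ^ 2)) < ⊤ := by
      rw [Bxx_vol hB (by positivity)]
      exact ENNReal.ofReal_lt_top
    have h := norm_setIntegral_le_of_norm_le_const (μ := (volume : Measure (ℝ × ℝ × ℝ)))
      (f := fun y => Phi M R e p h (m + u) y - Phi M R e p h m y) (C := 2000 * K ^ 9 * eta) hv
      (fun y hy => by
        rw [Real.norm_eq_abs]
        exact Phi_move hT hK hMK hM hBK heK he hR he0 he1 hu hV0 hVe ho ho' hF hF2 hy)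
    rw [Real.norm_eq_abs] at h
    have hr : (volume : Measure (ℝ × ℝ × ℝ)).real (Bxx (B0 e p) (8 * M * (K * T) ^ 2)) =
        8 * B0 e p ^ 2 * (8 * M * (K * T) ^ 2) := by
      rw [Measure.real, Bxx_vol hB (by positivity), ENNReal.toReal_ofReal (by positivity)]
    rw [hr] at h
    refine h.trans ?_
    have a1 : (B0 e p) ^ 2 ≤ K ^ 2 := pow_le_pow_left₀ hB hBK 2
    have a3 : 8 * M * (K * T) ^ 2 ≤ 8 * K * (K * T) ^ 2 := by
      have : 0 ≤ (K * T) ^ 2 := sq_nonneg _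
      nlinarith
    calc 2000 * K ^ 9 * eta * (8 * B0 e p ^ 2 * (8 * M * (K * T) ^ 2))
        ≤ 2000 * K ^ 9 * eta * (8 * K ^ 2 * (8 * K * (K * T) ^ 2)) :=
          mul_le_mul_of_nonneg_left (mul_le_mul (by linarith) a3 (by positivity)
            (by positivity)) (by positivity)
      _ = 128000 * K ^ 14 * T ^ 2 * eta := by ring
  have n1 := inv_nn ho
  have n2 := inv_nn ho'
  have n3 := nn_move hT hK he0 he1 hu hV0 hVT ho ho'
  have z1 := nn_ne_zero ho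
  have z2 := nn_ne_zero ho'
  rw [gA_eq ho, gA_eq ho']
  set x := Helper48_F5.nn (t3 m) (t3 h) with hx
  set x' := Helper48_F5.nn (t3 (m + u)) (t3 h) with hx'
  set J := ∫ y, Phi M R e p h m y with hJ
  set J' := ∫ y, Phi M R e p h (m + u) y with hJ'
  have p1 : 0 < |x| := abs_pos.2 z1
  have p2 : 0 < |x'| := abs_pos.2 z2
  have e3 : |x'|⁻¹ * J' - |x|⁻¹ * J = (|x'|⁻¹ - |x|⁻¹) * J' + |x|⁻¹ * (J' - J) := by ring
  have d1 : |(|x'|⁻¹ - |x|⁻¹)| ≤ 34992 * K ^ 11 * (T ^ 6)⁻¹ * eta := by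
    have e4 : |x'|⁻¹ - |x|⁻¹ = (|x| - |x'|) * (|x|⁻¹ * |x'|⁻¹) := by
      field_simp
    rw [e4, abs_mul, abs_of_nonneg (by positivity : 0 ≤ |x|⁻¹ * |x'|⁻¹)]
    have h1 : |(|x| - |x'|)| ≤ 972 * K ^ 5 * T ^ 6 * eta := by
      refine (abs_abs_sub_abs_le _ _).trans ?_
      rw [abs_sub_comm]
      exact n3
    calc |(|x| - |x'|)| * (|x|⁻¹ * |x'|⁻¹) ≤
        972 * K ^ 5 * T ^ 6 * eta * (6 * (K / T ^ 2) ^ 3 * (6 * (K / T ^ 2) ^ 3)) :=
          mul_le_mul h1 (mul_le_mul n1 n2 (by positivity) (by positivity)) (by positivity)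
            (by positivity)
      _ = 34992 * K ^ 11 * (T ^ 6)⁻¹ * eta := by
          field_simp
          ring
  rw [e3]
  refine (abs_add_le _ _).trans ?_
  rw [abs_mul, abs_mul, abs_of_nonneg I0, abs_of_nonneg (by positivity : 0 ≤ |x|⁻¹)]
  have t1 : |(|x'|⁻¹ - |x|⁻¹)| * J' ≤ 34992 * K ^ 11 * (T ^ 6)⁻¹ * eta * (64 * K ^ 7 * T ^ 2) :=
    mul_le_mul d1 I1 I0 (by positivity)
  have t2 : |x|⁻¹ * |J' - J| ≤ 6 * (K / T ^ 2) ^ 3 * (128000 * K ^ 14 * T ^ 2 * eta) :=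
    mul_le_mul n1 hD (abs_nonneg _) (by positivity)
  have e5 : 34992 * K ^ 11 * (T ^ 6)⁻¹ * eta * (64 * K ^ 7 * T ^ 2) =
      2239488 * K ^ 18 * (T ^ 4)⁻¹ * eta := by
    field_simp
    ring
  have e6 : 6 * (K / T ^ 2) ^ 3 * (128000 * K ^ 14 * T ^ 2 * eta) =
      768000 * K ^ 17 * (T ^ 4)⁻¹ * eta := by
    field_simp
    ring
  rw [e5] at t1
  rw [e6] at t2
  have t3 : K ^ 17 * ((T ^ 4)⁻¹ * eta) ≤ K ^ 18 * ((T ^ 4)⁻¹ * eta) :=
    mul_le_mul_of_nonneg_right (pow_le_pow_right₀ hK (by norm_num)) (by positivity)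
  have t4 : 0 ≤ K ^ 18 * ((T ^ 4)⁻¹ * eta) := by positivity
  nlinarith

end

end Pool.Agent.F5H.LIP
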