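import Pool.Agent.Helper85_F5H.DefsL

/-!
MP_f5cbfa_nt, squad F5H, block LIP: the kernel of a pair in terms of the five differences.
-/

set_option autoImplicit false

open MeasureTheory Filter Topology

namespace Pool.Agent.F5H.LIP

open Pool.Agent.BTL Pool.Agent.F5S Pool.Agent.F5H

theorem tn_neg (u : ℝ) : tn (-u) = tn u := by
  unfold tn
  rw [abs_neg]

theorem dot_add (A u v : ℝ × ℝ × ℝ) : dot A (u + v) = dot A u + dot A v := by
  simp only [dot, Prod.fst_add, Prod.snd_add]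
  ring

theorem dot_sub (A u v : ℝ × ℝ × ℝ) : dot A (u - v) = dot A u - dot A v := by
  simp only [dot, Prod.fst_sub, Prod.snd_sub]
  ring

theorem dot_smul (A u : ℝ × ℝ × ℝ) (c : ℝ) : dot A (c • u) = c * dot A u := by
  simp only [dot, Prod.smul_fst, Prod.smul_snd, smul_eq_mul]
  ring

theorem dot_vr (A : ℝ × ℝ × ℝ) (x : ℝ × ℝ) : dot A (vr x) = qf A x := by
  simp only [dot, vr, qf]
  ring

/-- values of the form at the two ends -/
theorem qf_sub_half (A : ℝ × ℝ × ℝ) (m h : ℝ × ℝ) :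
    qf A (m - (1 / 2 : ℝ) • h) = dot A (ev h m) - dot A (vb m h) := by
  simp only [dot, ev, vr, vb, qf, Prod.fst_sub, Prod.snd_sub, Prod.smul_fst, Prod.smul_snd,
    smul_eq_mul, Prod.fst_add, Prod.snd_add]
  ring

theorem qf_add_half (A : ℝ × ℝ × ℝ) (m h : ℝ × ℝ) :
    qf A (m + (1 / 2 : ℝ) • h) = dot A (ev h m) + dot A (vb m h) := by
  simp only [dot, ev, vr, vb, qf, Prod.smul_fst, Prod.smul_snd,
    smul_eq_mul, Prod.fst_add, Prod.snd_add]
  ring

/-- L1. The kernel of the pair `m - h/2`, `m + h/2` depends on the five differences only. -/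
theorem RV_eq (R e : ℝ) (p : ℝ × ℝ) (A : ℝ × ℝ × ℝ) (h m : R6) :
    RV R e p A (m - (1 / 2 : ℝ) • h) (m + (1 / 2 : ℝ) • h) = Ph R e p (dd5 h m A) := by
  have e1 := integral_add_right_eq_self (μ := (volume : Measure (ℝ × ℝ)))
    (fun z : ℝ × ℝ => PR R (z.1 - z.2) * (KA e p A z.1 (m - (1 / 2 : ℝ) • h) *
      KA e p A z.2 (m + (1 / 2 : ℝ) • h)))
    (dot A (Vc h m) - dot A (Uc h m), dot A (Vc h m) + dot A (Uc h m))
  unfold RV
  rw [← e1]
  unfold Ph
  refine integral_congr_ae (Filter.Eventually.of_forall fun z => ?_)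
  simp only [KA, Prod.fst_add, Prod.snd_add, Prod.fst_sub, Prod.snd_sub, Prod.smul_fst,
    Prod.smul_snd]
  have a1 := qf_sub_half A m.1 h.1
  have a2 := qf_sub_half A m.2.1 h.2.1
  have a3 := qf_sub_half A m.2.2 h.2.2
  have b1 := qf_add_half A m.1 h.1
  have b2 := qf_add_half A m.2.1 h.2.1
  have b3 := qf_add_half A m.2.2 h.2.2
  rw [a1, a2, a3, b1, b2, b3]
  simp only [dd5, Va, Vb, Vc, Ua, Ub, Uc, dot_sub]
  have t1 : tn ((dot A (ev h.2.2 m.2.2) - dot A (vb m.2.2 h.2.2) -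
      (z.1 + (dot A (ev h.2.2 m.2.2) - dot A (vb m.2.2 h.2.2)))) / e) = tn (z.1 / e) := by
    rw [← tn_neg (z.1 / e)]
    congr 1
    ring
  have t2 : tn ((dot A (ev h.2.2 m.2.2) + dot A (vb m.2.2 h.2.2) -
      (z.2 + (dot A (ev h.2.2 m.2.2) + dot A (vb m.2.2 h.2.2)))) / e) = tn (z.2 / e) := by
    rw [← tn_neg (z.2 / e)]
    congr 1
    ring
  rw [t1, t2]
  congr 1
  · congr 1
    ring
  · congr 1
    · congr 1
      · congr 1
        ring
      · congr 2
        ring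
    · congr 1
      · congr 1
        ring
      · congr 2
        ring

end Pool.Agent.F5H.LIP
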